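import Mathlib

set_option autoImplicit false

/-! If all elements of the finite extensions of a field with a primitive `p`-th root of unity are
`p`-th powers, then all finite extensions have degree prime to `p`. -/

namespace Pool.Agent.T9h43.MC

open IntermediateField Module

theorem not_dvd_finrank (F : Type) [Field F] [CharZero F] {p : ℕ} (hp : p.Prime)
    (h : ∀ (E : Type) [Field E] [Algebra F E] [FiniteDimensional F E] (ζ : E),
      IsPrimitiveRoot ζ p → ∀ x : E, ∃ y, y ^ p = x)
    (M : Type) [Field M] [Algebra F M] [FiniteDimensional F M] : ¬ p ∣ finrank F M := by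
  classical
  intro hdvd
  have hpf : Fact p.Prime := ⟨hp⟩
  let C := AlgebraicClosure F
  have : NeZero ((p : ℕ) : C) := ⟨by exact_mod_cast hp.ne_zero⟩
  obtain ⟨ζ, hζ⟩ : ∃ ζ : C, IsPrimitiveRoot ζ p := HasEnoughRootsOfUnity.exists_primitiveRoot C p
  let φ : M →ₐ[F] C := IsAlgClosed.lift
  let S : IntermediateField F C := φ.fieldRange ⊔ F⟮ζ⟯
  have hfζ : FiniteDimensional F F⟮ζ⟯ :=
    adjoin.finiteDimensional (Algebra.IsIntegral.isIntegral ζ)
  have hfφ : FiniteDimensional F φ.fieldRange :=
    (AlgEquiv.ofInjectiveField φ).toLinearEquiv.finiteDimensional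
  have hfS : FiniteDimensional F S := IntermediateField.finiteDimensional_sup _ _
  let N : IntermediateField F C := normalClosure F S C
  have hfN : FiniteDimensional F N := inferInstance
  have hnN : Normal F N := inferInstance
  have hgN : IsGalois F N := ⟨⟩
  have hSN : S ≤ N := le_normalClosure S
  have hζN : ζ ∈ N := hSN ((le_sup_right : F⟮ζ⟯ ≤ S) (mem_adjoin_simple_self F ζ))
  let ζN : N := ⟨ζ, hζN⟩
  have hζN' : IsPrimitiveRoot ζN p :=
    IsPrimitiveRoot.of_map_of_injective (f := algebraMap N C) hζ (algebraMap N C).injective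
  -- divisibility
  have hM : finrank F M = finrank F φ.fieldRange :=
    (AlgEquiv.ofInjectiveField φ).toLinearEquiv.finrank_eq
  have hdN : p ∣ finrank F N := by
    rw [hM] at hdvd
    refine hdvd.trans ?_
    rw [← finrank_bot_mul_relfinrank (show φ.fieldRange ≤ N from le_sup_left.trans hSN)]
    exact dvd_mul_right _ _
  have hint : IsIntegral F ζN := Algebra.IsIntegral.isIntegral ζN
  have hdeg : finrank F F⟮ζN⟯ ≤ p - 1 := by
    rw [adjoin.finrank hint]
    have hdv : minpoly F ζN ∣ Polynomial.cyclotomic p F := by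
      refine minpoly.dvd F ζN ?_
      rw [Polynomial.aeval_def, Polynomial.eval₂_eq_eval_map, Polynomial.map_cyclotomic,
        ← Polynomial.IsRoot.def, Polynomial.isRoot_cyclotomic_iff]
      exact hζN'
    have := Polynomial.natDegree_le_of_dvd hdv (Polynomial.cyclotomic_ne_zero p F)
    rwa [Polynomial.natDegree_cyclotomic, Nat.totient_prime hp] at this
  have hdz : p ∣ finrank F⟮ζN⟯ N := by
    rw [← finrank_mul_finrank F F⟮ζN⟯ N] at hdN
    rcases hp.dvd_mul.1 hdN with h1 | h1
    · exfalso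
      have := Nat.le_of_dvd finrank_pos h1
      have := hp.pos
      omega
    · exact h1
  rw [← IsGalois.card_aut_eq_finrank] at hdz
  obtain ⟨g, hg⟩ := exists_prime_orderOf_dvd_card' p hdz
  -- the fixed field
  let g' : N ≃ₐ[F] N := g.restrictScalars F
  have hg'apply : ∀ x, g' x = g x := fun _ => rfl
  have hg'1 : orderOf g' = p := by
    rw [← hg]
    have hinj : Function.Injective (AlgEquiv.restrictScalarsHom F :
        (N ≃ₐ[F⟮ζN⟯] N) →* (N ≃ₐ[F] N)) := AlgEquiv.restrictScalars_injective F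
    exact orderOf_injective _ hinj g
  let E : IntermediateField F N := fixedField (Subgroup.zpowers g')
  have hEζ : ζN ∈ E := by
    rw [mem_fixedField_iff]
    intro f hf
    obtain ⟨k, rfl⟩ := Subgroup.mem_zpowers_iff.1 hf
    have h1 : ∀ x ∈ F⟮ζN⟯, g' x = x := fun x hx => g.commutes ⟨x, hx⟩
    have h2 : g' ζN = ζN := h1 _ (mem_adjoin_simple_self F ζN)
    have h3 : g' ∈ MulAction.stabilizer (N ≃ₐ[F] N) ζN := h2
    exact (MulAction.stabilizer (N ≃ₐ[F] N) ζN).zpow_mem h3 k
  have hfin : finrank E N = p := by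
    rw [finrank_fixedField_eq_card, Nat.card_zpowers, hg'1]
  have hgal : IsGalois E N := inferInstance
  have hcard : Nat.card Gal(N/E) = p := by
    rw [IsGalois.card_aut_eq_finrank, hfin]
  have hcyc : IsCyclic Gal(N/E) := isCyclic_of_prime_card hcard
  let ζE : E := ⟨ζN, hEζ⟩
  have hζE : IsPrimitiveRoot ζE p :=
    IsPrimitiveRoot.of_map_of_injective (f := algebraMap E N) hζN' (algebraMap E N).injective
  obtain ⟨α, ⟨b, hb⟩, hα⟩ := exists_root_adjoin_eq_top_of_isCyclic E N (by
    rw [hfin]
    exact ⟨ζE, (mem_primitiveRoots hp.pos).2 hζE⟩)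
  rw [hfin] at hb
  obtain ⟨c, hc⟩ := h E ζE hζE b
  have hcα : (algebraMap E N c) ^ p = α ^ p := by rw [← map_pow, hc, hb]
  have hαE : ∃ a : E, algebraMap E N a = α := by
    by_cases hc0 : algebraMap E N c = 0
    · refine ⟨0, ?_⟩
      rw [hc0, zero_pow hp.ne_zero] at hcα
      rw [map_zero]
      exact (pow_eq_zero_iff hp.ne_zero).1 hcα.symm |>.symm
    · have h1 : (α / algebraMap E N c) ^ p = 1 := by
        rw [div_pow, ← hcα, div_self (pow_ne_zero _ hc0)]
      obtain ⟨i, -, hi⟩ := hζN'.eq_pow_of_pow_eq_one h1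
      refine ⟨ζE ^ i * c, ?_⟩
      rw [map_mul, map_pow]
      have h2 : algebraMap E N ζE = ζN := rfl
      rw [h2, hi, div_mul_cancel₀ _ hc0]
  obtain ⟨a, ha⟩ := hαE
  have hbot : E⟮α⟯ = ⊥ := by
    rw [adjoin_simple_eq_bot_iff, ← ha]
    exact IntermediateField.algebraMap_mem _ a
  rw [hbot] at hα
  have h5 : finrank E N = 1 := by
    rw [← finrank_top' (F := E) (E := N), ← hα]
    exact IntermediateField.finrank_bot
  rw [hfin] at h5
  exact hp.ne_one h5

end Pool.Agent.T9h43.MC
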