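import Mathlib

set_option autoImplicit false

/-! Artin-Schreier polynomials and `p`-th powers in complete nonarchimedean fields. -/

namespace Pool.Agent.T9h43.MC

open Finset

section est

variable {E : Type*} [NormedField E] [IsUltrametricDist E]

theorem norm_sub_le_max' (x y : E) : ‖x - y‖ ≤ max ‖x‖ ‖y‖ := by
  rw [sub_eq_add_neg, ← norm_neg y]
  exact IsUltrametricDist.norm_add_le_max x (-y)

theorem norm_sum_le' {ι : Type*} (s : Finset ι) (f : ι → E) (C : ℝ) (hC : 0 ≤ C)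
    (h : ∀ i ∈ s, ‖f i‖ ≤ C) : ‖∑ i ∈ s, f i‖ ≤ C :=
  IsUltrametricDist.norm_sum_le_of_forall_le_of_nonneg hC h

theorem norm_eq_of_sub_lt {x y : E} (h : ‖x - y‖ < ‖x‖) : ‖y‖ = ‖x‖ := by
  apply le_antisymm
  · have h1 : y = x - (x - y) := by ring
    rw [h1]
    exact (norm_sub_le_max' _ _).trans (max_le le_rfl h.le)
  · have h1 : x = (x - y) + y := by ring
    have h2 : ‖x‖ ≤ max ‖x - y‖ ‖y‖ := by
      conv_lhs => rw [h1]
      exact IsUltrametricDist.norm_add_le_max _ _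
    rcases le_max_iff.1 h2 with h3 | h3
    · exact absurd h (not_lt.2 h3)
    · exact h3

theorem norm_add_pow {p : ℕ} (hp : p.Prime) (x y : E) (hy : ‖y‖ ≤ 1) :
    ‖(x + y) ^ p - x ^ p - y ^ p‖ ≤ ‖(p : E)‖ * (max 1 ‖x‖) ^ (p - 1) * ‖y‖ := by
  have h1 : (x + y) ^ p - x ^ p - y ^ p =
      (p : E) * ∑ k ∈ Ioo 0 p, x ^ k * y ^ (p - k) * ((p.choose k / p : ℕ) : E) := by
    rw [add_pow_prime_eq' hp]
    ring
  rw [h1, norm_mul, mul_assoc]
  refine mul_le_mul_of_nonneg_left ?_ (norm_nonneg _)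
  refine norm_sum_le' _ _ _ (by positivity) fun k hk => ?_
  rw [mem_Ioo] at hk
  rw [norm_mul, norm_mul, norm_pow, norm_pow]
  have h2 : ‖x‖ ^ k ≤ (max 1 ‖x‖) ^ (p - 1) :=
    (pow_le_pow_left₀ (norm_nonneg _) (le_max_right _ _) k).trans
      (pow_le_pow_right₀ (le_max_left _ _) (by omega))
  have h3 : ‖y‖ ^ (p - k) ≤ ‖y‖ := pow_le_of_le_one (norm_nonneg _) hy (by omega)
  calc ‖x‖ ^ k * ‖y‖ ^ (p - k) * ‖((p.choose k / p : ℕ) : E)‖
      ≤ (max 1 ‖x‖) ^ (p - 1) * ‖y‖ * 1 := by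
        refine mul_le_mul (mul_le_mul h2 h3 (by positivity) (by positivity))
          (IsUltrametricDist.norm_natCast_le_one E _) (norm_nonneg _) (by positivity)
    _ = _ := mul_one _

theorem one_add_pow {p : ℕ} (hp : p.Prime) (y : E) (hy : ‖y‖ ≤ 1) :
    ‖(1 + y) ^ p - 1 - y ^ p - p * y‖ ≤ ‖(p : E)‖ * ‖y‖ ^ 2 := by
  have hp2 := hp.two_le
  have hmem : p - 1 ∈ Ioo 0 p := by
    rw [mem_Ioo]
    omega
  have h1 : (1 + y) ^ p - 1 - y ^ p - p * y =
      (p : E) * ∑ k ∈ (Ioo 0 p).erase (p - 1), y ^ (p - k) * ((p.choose k / p : ℕ) : E) := by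
    rw [add_pow_prime_eq' hp, ← Finset.add_sum_erase _ _ hmem]
    have h2 : p - (p - 1) = 1 := by omega
    have h3 : p.choose (p - 1) / p = 1 := by
      rw [Nat.choose_symm_of_eq_add (show p = (p - 1) + 1 by omega), Nat.choose_one_right,
        Nat.div_self hp.pos]
    rw [h2, h3]
    simp only [one_pow, one_mul, pow_one, Nat.cast_one, mul_one]
    ring
  rw [h1, norm_mul]
  refine mul_le_mul_of_nonneg_left ?_ (norm_nonneg _)
  refine norm_sum_le' _ _ _ (by positivity) fun k hk => ?_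
  rw [mem_erase, mem_Ioo] at hk
  rw [norm_mul, norm_pow]
  have h3 : ‖y‖ ^ (p - k) ≤ ‖y‖ ^ 2 := pow_le_pow_of_le_one (norm_nonneg _) hy (by omega)
  calc ‖y‖ ^ (p - k) * ‖((p.choose k / p : ℕ) : E)‖ ≤ ‖y‖ ^ 2 * 1 :=
        mul_le_mul h3 (IsUltrametricDist.norm_natCast_le_one E _) (norm_nonneg _) (by positivity)
    _ = _ := mul_one _

end est

section complete

variable {E : Type*} [NormedField E] [IsUltrametricDist E] [CompleteSpace E]

theorem fix (φ : E → E) (r c : ℝ) (hc0 : 0 ≤ c) (hc : c < 1) (hr : 0 ≤ r)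
    (h0 : ∀ h, ‖h‖ ≤ r → ‖φ h‖ ≤ r)
    (h1 : ∀ h h', ‖h‖ ≤ r → ‖h'‖ ≤ r → ‖φ h - φ h'‖ ≤ c * ‖h - h'‖) :
    ∃ h, ‖h‖ ≤ r ∧ φ h = h := by
  have hs : IsComplete (Metric.closedBall (0 : E) r) := Metric.isClosed_closedBall.isComplete
  have hmap : Set.MapsTo φ (Metric.closedBall (0 : E) r) (Metric.closedBall (0 : E) r) := by
    intro h hh
    rw [mem_closedBall_zero_iff] at hh ⊢
    exact h0 h hh
  have hcon : ContractingWith ⟨c, hc0⟩ (hmap.restrict φ _ _) := by
    refine ⟨by exact_mod_cast hc, LipschitzWith.of_dist_le_mul fun x y => ?_⟩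
    have hx := x.2
    have hy := y.2
    rw [mem_closedBall_zero_iff] at hx hy
    have h2 := h1 x y hx hy
    rw [← dist_eq_norm, ← dist_eq_norm] at h2
    exact h2
  obtain ⟨y, hy, hfix, -⟩ := ContractingWith.exists_fixedPoint' hs hmap hcon
    (x := 0) (Metric.mem_closedBall_self hr) (edist_ne_top _ _)
  rw [mem_closedBall_zero_iff] at hy
  exact ⟨y, hy, hfix⟩

/-- Hensel's lemma for Artin-Schreier polynomials. -/
theorem as_hensel {p : ℕ} (hp : p.Prime) (z y : E) (h0 : ‖(p : E)‖ < 1)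
    (h1 : ‖(p : E)‖ * ‖y‖ ^ (p - 1) < 1) (h2 : ‖z - (y ^ p - y)‖ < 1) :
    ∃ x, x ^ p - x = z ∧ ‖x - y‖ < 1 := by
  have hp2 := hp.two_le
  set r : ℝ := max ‖z - (y ^ p - y)‖ (1 / 2) with hr
  have hr0 : 0 < r := lt_max_of_lt_right (by norm_num)
  have hr1 : r < 1 := max_lt h2 (by norm_num)
  set c : ℝ := max (‖(p : E)‖ * (max 1 ‖y‖) ^ (p - 1)) (r ^ (p - 1)) with hc
  have hc1 : c < 1 := by
    refine max_lt ?_ (pow_lt_one₀ hr0.le hr1 (by omega))
    rcases le_total 1 ‖y‖ with h | h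
    · rwa [max_eq_right h]
    · rw [max_eq_left h, one_pow, mul_one]
      exact h0
  have hc0 : 0 ≤ c := le_max_of_le_right (by positivity)
  have key : ∀ h h' : E, ‖h‖ ≤ r → ‖h'‖ ≤ r →
      ‖((y + h) ^ p - y - z) - ((y + h') ^ p - y - z)‖ ≤ c * ‖h - h'‖ := by
    intro h h' hh hh'
    have hδ : ‖h - h'‖ ≤ r := (norm_sub_le_max' _ _).trans (max_le hh hh')
    have e1 : ((y + h) ^ p - y - z) - ((y + h') ^ p - y - z) =
        (((y + h') + (h - h')) ^ p - (y + h') ^ p - (h - h') ^ p) + (h - h') ^ p := by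
      have : (y + h') + (h - h') = y + h := by ring
      rw [this]
      ring
    rw [e1]
    refine (IsUltrametricDist.norm_add_le_max _ _).trans (max_le ?_ ?_)
    · refine (norm_add_pow hp _ _ (hδ.trans hr1.le)).trans ?_
      refine mul_le_mul_of_nonneg_right ?_ (norm_nonneg _)
      refine le_max_of_le_left ?_
      refine mul_le_mul_of_nonneg_left ?_ (norm_nonneg _)
      refine pow_le_pow_left₀ (by positivity) ?_ _
      refine max_le (le_max_left _ _) ((IsUltrametricDist.norm_add_le_max _ _).trans ?_)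
      exact max_le (le_max_right _ _) ((hh'.trans hr1.le).trans (le_max_left _ _))
    · rw [norm_pow]
      have e2 : ‖h - h'‖ ^ p = ‖h - h'‖ ^ (p - 1) * ‖h - h'‖ := by
        rw [← pow_succ, Nat.sub_add_cancel hp.pos]
      rw [e2]
      refine mul_le_mul_of_nonneg_right ?_ (norm_nonneg _)
      exact (pow_le_pow_left₀ (norm_nonneg _) hδ _).trans (le_max_right _ _)
  obtain ⟨h, hh, hfix⟩ := fix (fun h => (y + h) ^ p - y - z) r c hc0 hc1 hr0.le (by
    intro h hh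
    have h3 := key h 0 hh (by rw [norm_zero]; exact hr0.le)
    rw [sub_zero, add_zero] at h3
    have e3 : (y + h) ^ p - y - z = ((y + h) ^ p - y - z - (y ^ p - y - z)) - (z - (y ^ p - y)) := by
      ring
    show ‖(y + h) ^ p - y - z‖ ≤ r
    rw [e3]
    refine (norm_sub_le_max' _ _).trans (max_le (h3.trans ?_) (le_max_left _ _))
    calc c * ‖h‖ ≤ 1 * r := mul_le_mul hc1.le hh (norm_nonneg _) zero_le_one
      _ = r := one_mul _) key
  refine ⟨y + h, ?_, ?_⟩
  · have : (y + h) ^ p - y - z = h := hfix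
    linear_combination this
  · rw [add_sub_cancel_left]
    exact hh.trans_lt hr1

end complete

end Pool.Agent.T9h43.MC
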