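import Pool.Agent.N616.NH.FR2
import Pool.Agent.T9h43.MC.Hens

set_option autoImplicit false

/-! Artin-Schreier patterns in complete nonarchimedean fields of residue characteristic `p` which
are infinitely ramified or have an infinite residue field. -/

namespace Pool.Agent.T9h43.MC

open FirstOrder Pool.Agent.W882.Nip3 Filter Pool.Agent.N616.NH Pool.Agent.N616.NH.FR_

section general

variable {F : Type} [Field F]

/-- the pattern, relative to a coarsening -/
theorem patternA2 (V V1 : ValuationSubring F) (hle : V ≤ V1) (p : ℕ) [hp : Fact p.Prime]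
    [CharP (IsLocalRing.ResidueField V1) p] [Infinite (IsLocalRing.ResidueField V1)] (a : F)
    (ha : a ∈ V1) (hna : ¬ AS V p a) (N : ℕ) :
    ∃ u : F, ∀ U : Finset (Fin N), ∃ x : F, ∀ i : Fin N,
      (i ∉ U → ∃ y : F, V.valuation (p * y ^ (p - 1)) < 1 ∧
        V.valuation (u ^ (i : ℕ) * x - (y ^ p - y)) < 1) ∧
      (i ∈ U → ¬ AS V p (u ^ (i : ℕ) * x)) := by
  classical
  let a₁ : V1 := ⟨a, ha⟩
  obtain ⟨u₀, b₀, h₀⟩ := NP_.dual (L := IsLocalRing.ResidueField V1) p (IsLocalRing.residue V1 a₁) N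
  choose x₀ hx₀ using h₀
  obtain ⟨u, rfl⟩ := IsLocalRing.residue_surjective u₀
  choose b hb using fun j => IsLocalRing.residue_surjective (b₀ j)
  choose x hx using fun i j => IsLocalRing.residue_surjective (x₀ i j)
  refine ⟨(u : F), fun U => ⟨((∑ j ∈ U, b j : V1) : F), fun i => ?_⟩⟩
  have hpow : ∀ y z : V1, IsLocalRing.residue V1 ((y - z) ^ p) =
      IsLocalRing.residue V1 (y ^ p - z ^ p) := by
    intro y z
    rw [map_pow, map_sub, map_sub, map_pow, map_pow, sub_pow_char]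
  have hsum : IsLocalRing.residue V1 (u ^ (i : ℕ) * (∑ j ∈ U, b j) - (if i ∈ U then a₁ else 0)) =
      IsLocalRing.residue V1 ((∑ j ∈ U, x i j) ^ p - ∑ j ∈ U, x i j) := by
    have h1 : (∑ j ∈ U, x₀ i j) ^ p = ∑ j ∈ U, x₀ i j ^ p := by
      have := map_sum (frobenius (IsLocalRing.ResidueField V1) p) (fun j => x₀ i j) U
      simpa only [frobenius_def] using this
    have h2 : ∀ j ∈ U, x₀ i j ^ p - x₀ i j =
        IsLocalRing.residue V1 u ^ (i : ℕ) * b₀ j -
          (if i = j then IsLocalRing.residue V1 a₁ else 0) := fun j _ => (hx₀ i j).symm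
    have h3 : IsLocalRing.residue V1 (if i ∈ U then a₁ else 0) =
        if i ∈ U then IsLocalRing.residue V1 a₁ else 0 := by
      split_ifs
      · rfl
      · exact map_zero _
    rw [map_sub, map_mul, map_pow, map_sum, h3, map_sub, map_pow, map_sum]
    simp only [hb, hx]
    rw [h1, ← Finset.sum_sub_distrib, Finset.sum_congr rfl h2, Finset.sum_sub_distrib,
      ← Finset.mul_sum, Finset.sum_ite_eq]
  constructor
  · intro hi
    rw [if_neg hi, sub_zero] at hsum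
    set X : V1 := ∑ j ∈ U, x i j
    have h5 : IsLocalRing.residue V1 (u ^ (i : ℕ) * (∑ j ∈ U, b j) - (X ^ p - X)) = 0 := by
      rw [map_sub, hsum, sub_self]
    have h7 := val_lt_of_residue V V1 hle _ h5
    refine ⟨X, ?_, ?_⟩
    · have h8 : IsLocalRing.residue V1 ((p : V1) * X ^ (p - 1)) = 0 := by
        rw [map_mul, map_natCast, CharP.cast_eq_zero, zero_mul]
      have h9 := val_lt_of_residue V V1 hle _ h8
      have h10 : (p : F) * (X : F) ^ (p - 1) = (((p : V1) * X ^ (p - 1) : V1) : F) := by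
        push_cast
        ring
      rw [h10]
      exact h9
    · have h9 : (u : F) ^ (i : ℕ) * ((∑ j ∈ U, b j : V1) : F) - ((X : F) ^ p - X) =
          ((u ^ (i : ℕ) * (∑ j ∈ U, b j) - (X ^ p - X) : V1) : F) := by
        push_cast
        ring
      rw [h9]
      exact h7
  · rintro hi ⟨y, hy⟩
    rw [if_pos hi] at hsum
    -- `y` is in `V1`
    have h1 : (u : F) ^ (i : ℕ) * ((∑ j ∈ U, b j : V1) : F) - (y ^ p - y) ∈ V1 :=
      hle ((V.valuation_le_one_iff _).1 hy.le)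
    have h2 : y ^ p - y ∈ V1 := by
      have h3 : (u : F) ^ (i : ℕ) * ((∑ j ∈ U, b j : V1) : F) ∈ V1 :=
        (u ^ (i : ℕ) * (∑ j ∈ U, b j) : V1).2
      have h4 := sub_mem h3 h1
      rwa [sub_sub_cancel] at h4
    have h3 : y ∈ V1 := NP_.mem_of_pow_sub V1 hp.out.two_le h2
    let y₁ : V1 := ⟨y, h3⟩
    set X : V1 := ∑ j ∈ U, x i j
    have h5 : IsLocalRing.residue V1 (u ^ (i : ℕ) * (∑ j ∈ U, b j) - a₁ - (X ^ p - X)) = 0 := by
      rw [map_sub, hsum, sub_self]
    have h6 : IsLocalRing.residue V1 ((y₁ - X) ^ p - (y₁ ^ p - X ^ p)) = 0 := by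
      rw [map_sub, hpow, sub_self]
    have h7 := val_lt_of_residue V V1 hle _ h5
    have h8 := val_lt_of_residue V V1 hle _ h6
    apply hna
    refine ⟨y - X, ?_⟩
    have h9 : a - ((y - X) ^ p - (y - X)) =
        ((u : F) ^ (i : ℕ) * ((∑ j ∈ U, b j : V1) : F) - (y ^ p - y)) -
        ((u ^ (i : ℕ) * (∑ j ∈ U, b j) - a₁ - (X ^ p - X) : V1) : F) -
        (((y₁ - X) ^ p - (y₁ ^ p - X ^ p) : V1) : F) := by
      push_cast
      ring
    rw [h9]
    exact (Valuation.map_sub _ _ _).trans_lt (max_lt ((Valuation.map_sub _ _ _).trans_lt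
      (max_lt hy h7)) h8)

/-- the pattern for infinitely ramified valuation rings -/
theorem patternB2 {K : Type} [Field K] (O : ValuationSubring K) (p : ℕ) [hp : Fact p.Prime]
    (hram : ∀ N : ℕ, ∃ t a : K, O.valuation t < 1 ∧ O.valuation (p : K) < O.valuation t ^ N ∧
      O.valuation (a * t) ≤ 1 ∧ ¬ AS O p a) (N : ℕ) :
    ∃ u : K, ∀ U : Finset (Fin N), ∃ x : K, ∀ i : Fin N,
      (i ∉ U → ∃ y : K, O.valuation (p * y ^ (p - 1)) < 1 ∧
        O.valuation (u ^ (i : ℕ) * x - (y ^ p - y)) < 1) ∧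
      (i ∈ U → ¬ AS O p (u ^ (i : ℕ) * x)) := by
  classical
  choose t a ht1 ht2 hat hna using hram
  have ht0 : ∀ n, 1 ≤ n → t n ≠ 0 := by
    intro n hn h
    have := ht2 n
    rw [h, map_zero, zero_pow (by omega)] at this
    exact not_lt_zero this
  have hlarge : ∀ m : ℕ, ∀ᶠ n in (hyperfilter ℕ : Filter ℕ), m ≤ n := by
    intro m
    exact (Nat.hyperfilter_le_atTop (eventually_ge_atTop m) : _)
  have h0 : (t : G K) ≠ 0 := by
    intro h
    have h' : (t : G K) = ((fun _ => 0 : ℕ → K) : G K) := h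
    rw [Germ.coe_eq] at h'
    obtain ⟨n, h1, h2⟩ := (h'.and (hlarge 1)).exists
    exact ht0 n h2 h1
  have h1 : (VG O).valuation (t : G K) < 1 := (val_lt_one O t).2 (Eventually.of_forall ht1)
  have h2 : ∀ N : ℕ, (VG O).valuation ((p : ℕ) : G K) < (VG O).valuation (t : G K) ^ N := by
    intro N
    rw [← map_pow]
    have h3 : ((t : G K) ^ N) = ((fun n => t n ^ N : ℕ → K) : G K) := rfl
    have h4 : ((p : ℕ) : G K) = ((fun _ => (p : K) : ℕ → K) : G K) := rfl
    rw [h3, h4, val_lt]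
    filter_upwards [hlarge N] with n hn
    rw [map_pow]
    exact (ht2 n).trans_le (pow_le_pow_of_le_one zero_le (ht1 n).le hn)
  -- the coarsening
  have hvt : (VG O).valuation (t : G K) ≠ 0 := (Valuation.ne_zero_iff _).2 h0
  let V1 : ValuationSubring (G K) := PL_.O1 (VG O).valuation ((VG O).valuation (t : G K)) h1.le
  have hle : VG O ≤ V1 := fun x hx => PL_.mem_O1_of_le (((VG O).valuation_le_one_iff x).2 hx)
  have hch : CharP (IsLocalRing.ResidueField V1) p := by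
    refine (CharP.charP_iff_prime_eq_zero hp.out).2 ?_
    rw [← map_natCast (IsLocalRing.residue V1)]
    by_contra h
    obtain ⟨-, n, hn⟩ := (PL_.rs_ne_iff _).1 h
    have h1 : (((p : V1)) : G K) = (p : G K) := by simp
    rw [h1] at hn
    exact absurd (h2 n) (not_lt.2 hn)
  have hinf : Infinite (IsLocalRing.ResidueField V1) := by
    have hmem : (t : G K) ∈ V1 := PL_.mem_O1_of_le h1.le
    have h1' : PL_.rs (VG O).valuation ((VG O).valuation (t : G K)) h1.le ⟨(t : G K), hmem⟩ ≠ 0 :=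
      (PL_.rs_ne_iff _).2 ⟨h0, 1, by rw [pow_one]⟩
    have h2' := PL_.vb_rs _ h1'
    refine Infinite.of_injective
      (fun n : ℕ => PL_.rs (VG O).valuation ((VG O).valuation (t : G K)) h1.le
        ⟨(t : G K), hmem⟩ ^ n) fun m n hmn => ?_
    have h3 := congrArg (PL_.vb (VG O).valuation ((VG O).valuation (t : G K)) h1.le) hmn
    simp only [map_pow] at h3
    rw [h2'] at h3
    exact (pow_right_strictAnti₀ (zero_lt_iff.2 hvt) h1).injective h3
  have ha' : (a : G K) ∈ V1 := by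
    have hatV : (a : G K) * (t : G K) ∈ VG O := by
      have h3 : (a : G K) * (t : G K) = ((fun n => a n * t n : ℕ → K) : G K) := rfl
      rw [h3]
      exact Eventually.of_forall fun n => (O.valuation_le_one_iff _).1 (hat n)
    have h4 := ((VG O).valuation_le_one_iff _).2 hatV
    rw [map_mul] at h4
    show ∃ n : ℕ, (VG O).valuation (t : G K) ^ n * (VG O).valuation (a : G K) ≤ 1
    exact ⟨1, by rw [pow_one, mul_comm]; exact h4⟩
  have hna' : ¬ AS (VG O) p (a : G K) := by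
    rw [AS_iff]
    intro h
    obtain ⟨n, hn⟩ := h.exists
    exact hna n hn
  obtain ⟨u, hu⟩ := patternA2 (VG O) V1 hle p _ ha' hna' N
  choose x hx using hu
  obtain ⟨f, rfl⟩ : ∃ f : ℕ → K, (f : G K) = u := by
    induction u using Germ.inductionOn with | _ f => exact ⟨f, rfl⟩
  have hg : ∀ U : Finset (Fin N), ∃ g : ℕ → K, (g : G K) = x U := by
    intro U
    generalize x U = z
    induction z using Germ.inductionOn with | _ g => exact ⟨g, rfl⟩
  choose g hg using hg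
  have hall : ∀ᶠ n in (hyperfilter ℕ : Filter ℕ), ∀ U : Finset (Fin N), ∀ i : Fin N,
      (i ∉ U → ∃ y : K, O.valuation (p * y ^ (p - 1)) < 1 ∧
        O.valuation (f n ^ (i : ℕ) * g U n - (y ^ p - y)) < 1) ∧
      (i ∈ U → ¬ AS O p (f n ^ (i : ℕ) * g U n)) := by
    rw [eventually_all]
    intro U
    rw [eventually_all]
    intro i
    have h3 := hx U i
    rw [← hg U] at h3
    have h4 : (f : G K) ^ (i : ℕ) * (g U : G K) =
        ((fun n => f n ^ (i : ℕ) * g U n : ℕ → K) : G K) := rfl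
    rw [h4] at h3
    by_cases hi : i ∈ U
    · have h5 := h3.2 hi
      rw [AS_iff, ← Ultrafilter.eventually_not] at h5
      filter_upwards [h5] with n hn
      exact ⟨fun h => absurd hi h, fun _ => hn⟩
    · obtain ⟨y, hy1, hy2⟩ := h3.1 hi
      obtain ⟨w, rfl⟩ : ∃ w : ℕ → K, (w : G K) = y := by
        induction y using Germ.inductionOn with | _ w => exact ⟨w, rfl⟩
      have h6 : ((p : ℕ) : G K) * (w : G K) ^ (p - 1) =
          ((fun n => (p : K) * w n ^ (p - 1) : ℕ → K) : G K) := rfl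
      have h7 : ((fun n => f n ^ (i : ℕ) * g U n : ℕ → K) : G K) - ((w : G K) ^ p - (w : G K)) =
          ((fun n => f n ^ (i : ℕ) * g U n - (w n ^ p - w n) : ℕ → K) : G K) := rfl
      rw [h6, val_lt_one] at hy1
      rw [h7, val_lt_one] at hy2
      filter_upwards [hy1, hy2] with n hn1 hn2
      exact ⟨fun _ => ⟨w n, hn1, hn2⟩, fun h => absurd h hi⟩
  obtain ⟨n, hn⟩ := hall.exists
  exact ⟨f n, fun U => ⟨g U n, fun i => hn U i⟩⟩

end general

section normed

variable (E : Type) [NontriviallyNormedField E] [IsUltrametricDist E]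

/-- the unit ball -/
def ball : ValuationSubring E where
  carrier := {x | ‖x‖ ≤ 1}
  mul_mem' := by
    intro x y (hx : ‖x‖ ≤ 1) (hy : ‖y‖ ≤ 1)
    show ‖x * y‖ ≤ 1
    rw [norm_mul]
    exact mul_le_one₀ hx (norm_nonneg _) hy
  one_mem' := norm_one.le
  add_mem' := by
    intro x y (hx : ‖x‖ ≤ 1) (hy : ‖y‖ ≤ 1)
    exact (IsUltrametricDist.norm_add_le_max x y).trans (max_le hx hy)
  zero_mem' := by
    show ‖(0 : E)‖ ≤ 1
    rw [norm_zero]
    exact zero_le_one
  neg_mem' := by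
    intro x (hx : ‖x‖ ≤ 1)
    show ‖-x‖ ≤ 1
    rwa [norm_neg]
  mem_or_inv_mem' := by
    intro x
    show ‖x‖ ≤ 1 ∨ ‖x⁻¹‖ ≤ 1
    rw [norm_inv]
    rcases le_total ‖x‖ 1 with h | h
    · exact Or.inl h
    · exact Or.inr (inv_le_one_of_one_le₀ h)

variable {E}

theorem mem_ball' (x : E) : x ∈ ball E ↔ ‖x‖ ≤ 1 := Iff.rfl

theorem val_le_norm (x y : E) : (ball E).valuation x ≤ (ball E).valuation y ↔ ‖x‖ ≤ ‖y‖ := by
  by_cases hy : y = 0
  · rw [hy, map_zero, le_zero_iff, map_eq_zero, norm_zero]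
    constructor
    · rintro rfl
      rw [norm_zero]
    · intro h
      exact norm_le_zero_iff.1 h
  · have h1 : 0 < (ball E).valuation y := zero_lt_iff.2 ((Valuation.ne_zero_iff _).2 hy)
    have h2 : 0 < ‖y‖ := norm_pos_iff.2 hy
    rw [← div_le_one₀ h1, ← map_div₀, ValuationSubring.valuation_le_one_iff, mem_ball', norm_div,
      div_le_one h2]

theorem val_lt_norm (x y : E) : (ball E).valuation x < (ball E).valuation y ↔ ‖x‖ < ‖y‖ := by
  rw [← not_le, ← not_le, val_le_norm]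

theorem val_lt_one_norm (x : E) : (ball E).valuation x < 1 ↔ ‖x‖ < 1 := by
  have := val_lt_norm x 1
  rwa [map_one, norm_one] at this

/-- the pattern in `E` -/
def Pat (E : Type) [NormedField E] (p N : ℕ) : Prop :=
  ∃ u : E, ∀ U : Finset (Fin N), ∃ x : E, ∀ i : Fin N,
    (i ∉ U → ∃ y, y ^ p - y = u ^ (i : ℕ) * x) ∧
      (i ∈ U → ∀ y, 1 ≤ ‖u ^ (i : ℕ) * x - (y ^ p - y)‖)

variable [CompleteSpace E]

theorem pat_of {p : ℕ} [hp : Fact p.Prime] (hp1 : ‖(p : E)‖ < 1) {N : ℕ}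
    (h : ∃ u : E, ∀ U : Finset (Fin N), ∃ x : E, ∀ i : Fin N,
      (i ∉ U → ∃ y : E, (ball E).valuation (p * y ^ (p - 1)) < 1 ∧
        (ball E).valuation (u ^ (i : ℕ) * x - (y ^ p - y)) < 1) ∧
      (i ∈ U → ¬ AS (ball E) p (u ^ (i : ℕ) * x))) : Pat E p N := by
  obtain ⟨u, hu⟩ := h
  refine ⟨u, fun U => ?_⟩
  obtain ⟨x, hx⟩ := hu U
  refine ⟨x, fun i => ⟨fun hi => ?_, fun hi y => ?_⟩⟩
  · obtain ⟨y, h1, h2⟩ := (hx i).1 hi
    rw [val_lt_one_norm] at h1 h2
    rw [norm_mul, norm_pow] at h1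
    obtain ⟨w, hw, -⟩ := as_hensel hp.out _ y hp1 h1 h2
    exact ⟨w, hw⟩
  · by_contra hcon
    rw [not_le] at hcon
    exact (hx i).2 hi ⟨y, (val_lt_one_norm _).2 hcon⟩

omit [CompleteSpace E] in
theorem charP_residue {p : ℕ} (hp : p.Prime) (hp1 : ‖(p : E)‖ < 1) :
    CharP (IsLocalRing.ResidueField (ball E)) p := by
  refine (CharP.charP_iff_prime_eq_zero hp).2 ?_
  rw [← map_natCast (IsLocalRing.residue (ball E)), IsLocalRing.residue_eq_zero_iff,
    ValuationSubring.valuation_lt_one_iff, val_lt_one_norm]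
  exact hp1

/-- infinite residue field -/
theorem pat_residue {p : ℕ} (hp : p.Prime) (hp1 : ‖(p : E)‖ < 1)
    (hinf : Infinite (IsLocalRing.ResidueField (ball E))) (a : E) (ha : ‖a‖ ≤ 1)
    (hna : ∀ x : E, x ^ p - x ≠ a) (N : ℕ) : Pat E p N := by
  have : Fact p.Prime := ⟨hp⟩
  have := charP_residue (E := E) hp hp1
  refine pat_of hp1 (patternA2 (ball E) (ball E) le_rfl p a ha ?_ N)
  rintro ⟨y, hy⟩
  rw [val_lt_one_norm] at hy
  have hy1 : ‖y‖ ≤ 1 := by
    by_contra hcon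
    rw [not_le] at hcon
    have h1 : ‖y ^ p - ((a - (y ^ p - y)) - (a + y) + y ^ p + y ^ p)‖ < ‖y ^ p‖ := by
      have e : y ^ p - ((a - (y ^ p - y)) - (a + y) + y ^ p + y ^ p) = 0 := by ring
      rw [e, norm_zero]
      exact norm_pos_iff.2 (pow_ne_zero _ (norm_pos_iff.1 (by linarith)))
    have h2 : y ^ p = (a + y) - (a - (y ^ p - y)) := by ring
    have h3 : ‖y ^ p‖ ≤ max (max ‖a‖ ‖y‖) ‖a - (y ^ p - y)‖ := by
      conv_lhs => rw [h2]
      exact (norm_sub_le_max' _ _).trans (max_le_max_right _ (IsUltrametricDist.norm_add_le_max _ _))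
    have h4 : max (max ‖a‖ ‖y‖) ‖a - (y ^ p - y)‖ ≤ ‖y‖ :=
      max_le (max_le (ha.trans hcon.le) le_rfl) (hy.le.trans hcon.le)
    rw [norm_pow] at h3
    have h5 : ‖y‖ ^ 1 < ‖y‖ ^ p := pow_lt_pow_right₀ hcon hp.one_lt
    rw [pow_one] at h5
    linarith
  obtain ⟨x, hx, -⟩ := as_hensel hp a y hp1 (by
    calc ‖(p : E)‖ * ‖y‖ ^ (p - 1) ≤ ‖(p : E)‖ * 1 :=
          mul_le_mul_of_nonneg_left (pow_le_one₀ (norm_nonneg _) hy1) (norm_nonneg _)
      _ < 1 := by rw [mul_one]; exact hp1) hy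
  exact hna x hx

/-- infinitely ramified fields -/
theorem pat_ram {p : ℕ} (hp : p.Prime) (hp1 : ‖(p : E)‖ < 1)
    (hram : ∀ N : ℕ, ∃ t a : E, ‖t‖ < 1 ∧ ‖(p : E)‖ < ‖t‖ ^ N ∧ ‖a * t‖ ≤ 1 ∧
      ∀ x : E, x ^ p - x ≠ a) (N : ℕ) : Pat E p N := by
  have : Fact p.Prime := ⟨hp⟩
  refine pat_of hp1 (patternB2 (ball E) p (fun N => ?_) N)
  obtain ⟨t, a, ht1, ht2, hat, hna⟩ := hram (N + p)
  have htp : 0 < ‖t‖ := by
    rcases (norm_nonneg t).lt_or_eq with h | h
    · exact h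
    · exfalso
      rw [← h, zero_pow (by have := hp.pos; omega)] at ht2
      exact absurd ht2 (not_lt.2 (norm_nonneg _))
  refine ⟨t, a, (val_lt_one_norm _).2 ht1, ?_, ?_, ?_⟩
  · rw [← map_pow, val_lt_norm, norm_pow]
    exact ht2.trans_le (pow_le_pow_of_le_one htp.le ht1.le (by omega))
  · have := val_le_norm (a * t) 1
    rw [map_one, norm_one] at this
    exact this.2 hat
  · rintro ⟨y, hy⟩
    rw [val_lt_one_norm] at hy
    have hat' : ‖a‖ * ‖t‖ ≤ 1 := by rwa [← norm_mul]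
    -- `‖y‖ ≤ 1 / ‖t‖`
    have h1t : 1 ≤ ‖t‖⁻¹ := by
      rw [one_le_inv₀ htp]
      exact ht1.le
    have hat2 : ‖a‖ ≤ ‖t‖⁻¹ := by
      rw [← mul_one ‖t‖⁻¹, ← div_eq_inv_mul, le_div_iff₀ htp]
      exact hat'
    have hy1 : ‖y‖ ≤ ‖t‖⁻¹ := by
      by_contra hcon
      rw [not_le] at hcon
      have h2 : y ^ p = (a + y) - (a - (y ^ p - y)) := by ring
      have h3 : ‖y ^ p‖ ≤ max (max ‖a‖ ‖y‖) ‖a - (y ^ p - y)‖ := by
        conv_lhs => rw [h2]
        exact (norm_sub_le_max' _ _).trans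
          (max_le_max_right _ (IsUltrametricDist.norm_add_le_max _ _))
      have h4 : max (max ‖a‖ ‖y‖) ‖a - (y ^ p - y)‖ ≤ ‖y‖ :=
        max_le (max_le (hat2.trans hcon.le) le_rfl) (hy.le.trans (h1t.trans hcon.le))
      rw [norm_pow] at h3
      have h5 : ‖y‖ ^ 1 < ‖y‖ ^ p := pow_lt_pow_right₀ (h1t.trans_lt hcon) hp.one_lt
      rw [pow_one] at h5
      linarith
    obtain ⟨x, hx, -⟩ := as_hensel hp a y hp1 (by
      have h6 : ‖t‖ ^ (N + p) ≤ ‖t‖ ^ (p - 1) := pow_le_pow_of_le_one htp.le ht1.le (by omega)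
      calc ‖(p : E)‖ * ‖y‖ ^ (p - 1) ≤ ‖(p : E)‖ * ‖t‖⁻¹ ^ (p - 1) :=
            mul_le_mul_of_nonneg_left (pow_le_pow_left₀ (norm_nonneg _) hy1 _) (norm_nonneg _)
        _ < ‖t‖ ^ (p - 1) * ‖t‖⁻¹ ^ (p - 1) :=
            mul_lt_mul_of_pos_right (ht2.trans_le h6) (by positivity)
        _ = 1 := by rw [← mul_pow, mul_inv_cancel₀ htp.ne', one_pow]) hy
    exact hna x hx

end normed

end Pool.Agent.T9h43.MC
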