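import Pool.Agent.T9h43.MC.CP
import Pool.Agent.T9h43.MC.Gal
import Pool.Agent.T9h43.MC.Pat

set_option autoImplicit false

/-! Complete fields without Artin-Schreier patterns. -/

namespace Pool.Agent.T9h43.MC

section step

variable {E : Type} [NontriviallyNormedField E] [IsUltrametricDist E] [CompleteSpace E]

theorem step {p : ℕ} (hp : p.Prime) (hp1 : ‖(p : E)‖ < 1) (hno : ¬ ∀ N, Pat E p N) :
    (Infinite (IsLocalRing.ResidueField (ball E)) → ∀ a : E, ‖a‖ ≤ 1 → ∃ x, x ^ p - x = a) ∧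
    ((∀ N : ℕ, ∃ t : E, ‖t‖ < 1 ∧ ‖(p : E)‖ < ‖t‖ ^ N) →
      ∃ t : E, ‖t‖ < 1 ∧ ∀ a : E, ‖a * t‖ ≤ 1 → ∃ x, x ^ p - x = a) := by
  constructor
  · intro hinf a ha
    by_contra hcon
    push Not at hcon
    exact hno fun N => pat_residue hp hp1 hinf a ha hcon N
  · intro hNR
    by_contra hcon
    push Not at hcon
    refine hno fun N => pat_ram hp hp1 (fun N => ?_) N
    obtain ⟨t, ht1, ht2⟩ := hNR N
    obtain ⟨a, ha1, ha2⟩ := hcon t ht1
    exact ⟨t, a, ht1, ht2, ha1, ha2⟩

end step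

theorem charZero_of {F : Type} [NontriviallyNormedField F] [IsUltrametricDist F] {p : ℕ}
    (hp : p.Prime) (hp0 : (p : F) ≠ 0) (hp1 : ‖(p : F)‖ < 1) : CharZero F := by
  obtain ⟨q, hq⟩ := CharP.exists F
  rcases (CharP.char_is_prime_or_zero F q) with h | h
  · exfalso
    have hne : p ≠ q := by
      rintro rfl
      exact hp0 (CharP.cast_eq_zero F p)
    have hcop : IsCoprime (p : ℤ) (q : ℤ) := by
      rw [Nat.isCoprime_iff_coprime]
      exact (Nat.coprime_primes hp h).2 hne
    obtain ⟨a, b, hab⟩ := hcop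
    have h1 : (a : F) * (p : F) = 1 := by
      have h2 := congrArg (fun z : ℤ => (z : F)) hab
      simp only [Int.cast_add, Int.cast_mul, Int.cast_natCast, Int.cast_one,
        CharP.cast_eq_zero F q, mul_zero, add_zero] at h2
      exact h2
    have h3 : ‖(a : F)‖ * ‖(p : F)‖ = 1 := by rw [← norm_mul, h1, norm_one]
    have h4 : ‖(a : F)‖ ≤ 1 := IsUltrametricDist.norm_intCast_le_one F a
    have h5 : ‖(a : F)‖ * ‖(p : F)‖ ≤ 1 * ‖(p : F)‖ :=
      mul_le_mul_of_nonneg_right h4 (norm_nonneg _)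
    linarith
  · subst h
    exact CharP.charP_to_charZero F

theorem exists_unif {F : Type} [NontriviallyNormedField F] {c : ℝ} (hc0 : 0 < c) (hc1 : c < 1)
    {N : ℕ} (h : ∀ t : F, ‖t‖ < 1 → ‖t‖ ^ N ≤ c) :
    ∃ π : F, π ≠ 0 ∧ ‖π‖ < 1 ∧ ∀ x : F, ‖x‖ < 1 → ‖x‖ ≤ ‖π‖ := by
  have hN : N ≠ 0 := by
    rintro rfl
    have := h 0 (by rw [norm_zero]; exact one_pos)
    rw [pow_zero] at this
    linarith
  set r : ℝ := c ^ ((N : ℝ)⁻¹) with hr
  have hr0 : 0 < r := Real.rpow_pos_of_pos hc0 _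
  have hr1 : r < 1 := Real.rpow_lt_one hc0.le hc1 (by positivity)
  have hle : ∀ t : F, ‖t‖ < 1 → ‖t‖ ≤ r := by
    intro t ht
    rw [← Real.pow_rpow_inv_natCast (norm_nonneg t) hN]
    exact Real.rpow_le_rpow (by positivity) (h t ht) (by positivity)
  let S : Set ℝ := {y | ∃ t : F, t ≠ 0 ∧ ‖t‖ < 1 ∧ ‖t‖ = y}
  have hne : S.Nonempty := by
    obtain ⟨t, h1, h2⟩ := NormedField.exists_norm_lt_one F
    exact ⟨_, t, norm_pos_iff.1 h1, h2, rfl⟩
  have hbdd : BddAbove S := ⟨r, by
    rintro y ⟨t, -, ht, rfl⟩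
    exact hle t ht⟩
  have hs0 : 0 < sSup S := by
    obtain ⟨y, t, h1, h2, h3⟩ := hne
    exact lt_of_lt_of_le (by rw [← h3]; exact norm_pos_iff.2 h1) (le_csSup hbdd ⟨t, h1, h2, h3⟩)
  have hlt : sSup S * r < sSup S := by
    calc sSup S * r < sSup S * 1 := mul_lt_mul_of_pos_left hr1 hs0
      _ = _ := mul_one _
  obtain ⟨y, ⟨π, h1, h2, rfl⟩, h3⟩ := exists_lt_of_lt_csSup hne hlt
  refine ⟨π, h1, h2, fun x hx => ?_⟩
  by_contra hcon
  rw [not_le] at hcon
  have hxpos : 0 < ‖x‖ := (norm_nonneg _).trans_lt hcon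
  have h4 : ‖π / x‖ < 1 := by
    rw [norm_div, div_lt_one hxpos]
    exact hcon
  have h5 := hle _ h4
  rw [norm_div, div_le_iff₀ hxpos] at h5
  have h6 : ‖x‖ ≤ sSup S := le_csSup hbdd ⟨x, norm_pos_iff.1 hxpos, hx, rfl⟩
  have h7 : r * ‖x‖ ≤ r * sSup S := mul_le_mul_of_nonneg_left h6 hr0.le
  linarith

/-- a finite residue field of an extension -/
theorem finite_cover (F : Type) [NontriviallyNormedField F] [IsUltrametricDist F] (E : Type)
    [NontriviallyNormedField E] [IsUltrametricDist E] [NormedAlgebra F E]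
    (hfin : Finite (IsLocalRing.ResidueField (ball E))) :
    ∃ S : Finset F, ∀ x : F, ‖x‖ ≤ 1 → ∃ s ∈ S, ‖x - s‖ < 1 := by
  classical
  have := Fintype.ofFinite (IsLocalRing.ResidueField (ball E))
  have hmem : ∀ x : F, ‖x‖ ≤ 1 → algebraMap F E x ∈ ball E := by
    intro x hx
    rw [mem_ball', norm_algebraMap']
    exact hx
  let f : {x : F // ‖x‖ ≤ 1} → IsLocalRing.ResidueField (ball E) := fun x =>
    IsLocalRing.residue (ball E) ⟨algebraMap F E x.1, hmem x.1 x.2⟩
  let g : IsLocalRing.ResidueField (ball E) → F := fun c =>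
    if h : ∃ x, f x = c then (h.choose : {x : F // ‖x‖ ≤ 1}).1 else 0
  refine ⟨Finset.univ.image g, fun x hx => ⟨g (f ⟨x, hx⟩), Finset.mem_image_of_mem _
    (Finset.mem_univ _), ?_⟩⟩
  have hex : ∃ y, f y = f ⟨x, hx⟩ := ⟨_, rfl⟩
  have h1 : g (f ⟨x, hx⟩) = hex.choose.1 := dif_pos hex
  have h2 : f hex.choose = f ⟨x, hx⟩ := hex.choose_spec
  rw [h1]
  set y := hex.choose
  have h3 : IsLocalRing.residue (ball E) (⟨algebraMap F E x, hmem x hx⟩ -
      ⟨algebraMap F E y.1, hmem y.1 y.2⟩) = 0 := by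
    rw [map_sub, sub_eq_zero]
    exact h2.symm
  rw [IsLocalRing.residue_eq_zero_iff, ValuationSubring.valuation_lt_one_iff,
    val_lt_one_norm] at h3
  have h4 : ((⟨algebraMap F E x, hmem x hx⟩ - ⟨algebraMap F E y.1, hmem y.1 y.2⟩ : ball E) : E) =
      algebraMap F E (x - y.1) := by
    rw [map_sub]
    rfl
  rw [h4, norm_algebraMap'] at h3
  exact h3

/-- the main theorem for complete fields -/
theorem main (F : Type) [NontriviallyNormedField F] [CompleteSpace F] [IsUltrametricDist F]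
    {p : ℕ} (hp : p.Prime) (hp1 : ‖(p : F)‖ < 1)
    (hno : ∀ (E : Type) [NontriviallyNormedField E] [IsUltrametricDist E] [NormedAlgebra F E]
      [FiniteDimensional F E] [Algebra.IsSeparable F E], ¬ ∀ N, Pat E p N) :
    (∀ (M : Type) [Field M] [Algebra F M] [FiniteDimensional F M], ¬ p ∣ Module.finrank F M) ∨
    ((p : F) ≠ 0 ∧ (∃ π : F, π ≠ 0 ∧ ‖π‖ < 1 ∧ ∀ x : F, ‖x‖ < 1 → ‖x‖ ≤ ‖π‖) ∧
      ((∃ S : Finset F, ∀ x : F, ‖x‖ ≤ 1 → ∃ s ∈ S, ‖x - s‖ < 1) ∨
        ∀ (E : Type) [Field E] [Algebra F E] [FiniteDimensional F E] (a : E),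
          (∀ k, ‖(minpoly F a).coeff k‖ ≤ 1) → ∃ y : E, y ^ p - y = a)) := by
  classical
  by_cases hNR : ∀ N : ℕ, ∃ t : F, ‖t‖ < 1 ∧ ‖(p : F)‖ < ‖t‖ ^ N
  · left
    by_cases hp0 : (p : F) = 0
    · have hch : CharP F p := (CharP.charP_iff_prime_eq_zero hp).2 hp0
      have : Fact p.Prime := ⟨hp⟩
      obtain ⟨t, ht1, hAS⟩ := (step hp hp1 (hno F)).2 hNR
      have hperf := perfect_of hp t ht1 hAS
      have : PerfectRing F p := PerfectRing.ofSurjective F p fun x => by
        obtain ⟨y, hy⟩ := hperf x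
        exact ⟨y, hy⟩
      have : PerfectField F := PerfectRing.toPerfectField F p
      intro M _ _ _
      refine not_dvd_finrank_char F hp hperf (fun E _ _ _ => ?_) M
      let _ : NontriviallyNormedField E := spectralNorm.nontriviallyNormedField F E
      let _ : NormedAlgebra F E := spectralNorm.normedAlgebra F E
      have : IsUltrametricDist E :=
        IsUltrametricDist.isUltrametricDist_of_isNonarchimedean_norm isNonarchimedean_spectralNorm
      have : CompleteSpace E := spectralNorm.completeSpace F E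
      have hpn : ‖(p : E)‖ = ‖(p : F)‖ := by
        rw [← map_natCast (algebraMap F E), norm_algebraMap']
      have hchE : CharP E p := charP_of_injective_algebraMap (algebraMap F E).injective p
      obtain ⟨t, ht1, hAS⟩ := (step (E := E) hp (by rw [hpn]; exact hp1) (hno E)).2 (fun N => by
        obtain ⟨t, h1, h2⟩ := hNR N
        exact ⟨algebraMap F E t, by rwa [norm_algebraMap'], by rwa [norm_algebraMap', hpn]⟩)
      exact as_closed hp t ht1 hAS
    · have hch : CharZero F := charZero_of hp hp0 hp1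
      intro M _ _ _
      refine not_dvd_finrank F hp (fun E _ _ _ ζ hζ => ?_) M
      let _ : NontriviallyNormedField E := spectralNorm.nontriviallyNormedField F E
      let _ : NormedAlgebra F E := spectralNorm.normedAlgebra F E
      have : IsUltrametricDist E :=
        IsUltrametricDist.isUltrametricDist_of_isNonarchimedean_norm isNonarchimedean_spectralNorm
      have : CompleteSpace E := spectralNorm.completeSpace F E
      have hpn : ‖(p : E)‖ = ‖(p : F)‖ := by
        rw [← map_natCast (algebraMap F E), norm_algebraMap']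
      have hpE : (p : E) ≠ 0 := by
        rw [← norm_ne_zero_iff, hpn, norm_ne_zero_iff]
        exact hp0
      have hpE1 : ‖(p : E)‖ < 1 := by rw [hpn]; exact hp1
      exact all_powers hp hpE hpE1 hζ ((step (E := E) hp hpE1 (hno E)).2 (fun N => by
        obtain ⟨t, h1, h2⟩ := hNR N
        exact ⟨algebraMap F E t, by rwa [norm_algebraMap'], by rwa [norm_algebraMap', hpn]⟩))
  · right
    push Not at hNR
    obtain ⟨N, hN⟩ := hNR
    have hp0 : (p : F) ≠ 0 := by
      intro h0
      obtain ⟨t, h1, h2⟩ := NormedField.exists_norm_lt_one F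
      have h3 := hN t h2
      rw [h0, norm_zero] at h3
      exact absurd h3 (not_le.2 (pow_pos h1 N))
    have hch : CharZero F := charZero_of hp hp0 hp1
    refine ⟨hp0, exists_unif (norm_pos_iff.2 hp0) hp1 hN, ?_⟩
    by_cases hS : ∃ S : Finset F, ∀ x : F, ‖x‖ ≤ 1 → ∃ s ∈ S, ‖x - s‖ < 1
    · exact Or.inl hS
    right
    intro E _ _ _ a ha
    let _ : NontriviallyNormedField E := spectralNorm.nontriviallyNormedField F E
    let _ : NormedAlgebra F E := spectralNorm.normedAlgebra F E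
    have : IsUltrametricDist E :=
      IsUltrametricDist.isUltrametricDist_of_isNonarchimedean_norm isNonarchimedean_spectralNorm
    have : CompleteSpace E := spectralNorm.completeSpace F E
    have hpn : ‖(p : E)‖ = ‖(p : F)‖ := by
      rw [← map_natCast (algebraMap F E), norm_algebraMap']
    have hinf : Infinite (IsLocalRing.ResidueField (ball E)) := by
      rw [← not_finite_iff_infinite]
      intro hfin
      exact hS (finite_cover F E hfin)
    refine (step (E := E) hp (by rw [hpn]; exact hp1) (hno E)).1 hinf a ?_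
    show spectralNorm F E a ≤ 1
    exact (spectralValue_le_one_iff (minpoly.monic (Algebra.IsIntegral.isIntegral a))).2 ha

end Pool.Agent.T9h43.MC
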