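import Pool.Agent.N616.NV.PB
import Pool.Agent.N616.NV.VD
import Pool.Agent.N616.NH.NP2
import Pool.Agent.T9h43.MC.Pat

set_option autoImplicit false

/-! Patterns in finite extensions of the completions give independence patterns. -/

namespace Pool.Agent.T9h43.MC

open Polynomial Topology Filter FirstOrder Pool.Agent.W882.Nip3 Pool.Agent.N616.NH
  Pool.Agent.N616.NV Pool.Agent.N616.NH.DJ_ Pool.Agent.N616.NV.PB_

section alg

variable {K : Type} [Field K] (O : ValuationSubring K) {F : Type} [Field F] (ψ : O →+* F)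
  {e : ℕ} (gK : Fin (e+1) → K) (hg : ∀ k, gK k ∈ O) {M : Type} [Field M] [Algebra F M]

theorem tau_injective : Function.Injective (tau O gK hg) := by
  intro u v h
  apply (algBasis (e+1) (gO O gK hg)).repr.injective
  ext k
  have h1 := tau_repr O gK hg u k
  have h2 := tau_repr O gK hg v k
  rw [h] at h1
  exact h1.symm.trans h2

theorem irred [FiniteDimensional F M] (hM : Module.finrank F M = e + 1) (T : M)
    (hT0 : ev (e+1) T (fun k => ψ (gO O gK hg k)) = 0)
    (hTli : LinearIndependent F (fun k : Fin (e+1) => T ^ (k : ℕ))) :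
    Irreducible (mpoly (e+1) gK) := by
  classical
  have hcard : Fintype.card (Fin (e+1)) = Module.finrank F M := by rw [hM, Fintype.card_fin]
  let pb : PowerBasis F M :=
    { gen := T
      dim := e + 1
      basis := basisOfLinearIndependentOfCardEqFinrank hTli hcard
      basis_eq_pow := fun k => by simp }
  have hint : IsIntegral F T := Algebra.IsIntegral.isIntegral T
  have h2 : minpoly F T = mpoly (e+1) (fun k => ψ (gO O gK hg k)) := by
    have hdvd : minpoly F T ∣ mpoly (e+1) (fun k => ψ (gO O gK hg k)) :=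
      minpoly.dvd F T (by rw [aeval_mpoly, hT0])
    have hnd : (minpoly F T).natDegree = e + 1 := pb.natDegree_minpoly
    symm
    exact eq_of_monic_of_dvd_of_natDegree_le (minpoly.monic hint) (mpoly_monic _ _) hdvd
      (by rw [hnd, mpoly_natDegree])
  have h1 : Irreducible (mpoly (e+1) (fun k => ψ (gO O gK hg k))) := by
    rw [← h2]
    exact minpoly.irreducible hint
  have h3 : Irreducible (mpoly (e+1) (gO O gK hg)) :=
    (mpoly_monic _ _).irreducible_of_irreducible_map ψ _ (by rw [map_mpoly]; exact h1)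
  have h4 := ((mpoly_monic (e+1) (gO O gK hg)).irreducible_iff_irreducible_map_fraction_map
    (K := K)).1 h3
  rw [map_mpoly] at h4
  exact h4

theorem tau_algebraMap (r : O) : tau O gK hg (algebraMap O _ r) = algebraMap K _ (r : K) :=
  algMap_algebraMap O.subtype _ _ r

theorem phi_algebraMap (T : M) (hT0 : ev (e+1) T (fun k => ψ (gO O gK hg k)) = 0) (r : O) :
    phi O ψ gK hg T hT0 (algebraMap O _ r) = algebraMap F M (ψ r) := by
  rw [AdjoinRoot.algebraMap_eq, phi, AdjoinRoot.lift_of]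
  rfl

theorem mem_tau_of_pow_sub (hψ : ∀ x, ψ x ≠ 0 → IsUnit x) (T : M)
    (hT0 : ev (e+1) T (fun k => ψ (gO O gK hg k)) = 0)
    (hTli : LinearIndependent F (fun k : Fin (e+1) => T ^ (k : ℕ))) {p : ℕ} (hp : 2 ≤ p)
    (y : Alg (e+1) gK) (z : Alg (e+1) (gO O gK hg)) (h : y ^ p - y = tau O gK hg z) :
    ∃ y', tau O gK hg y' = y := by
  classical
  obtain ⟨w, rfl⟩ := exists_elt gK y
  by_cases hw : w = 0
  · refine ⟨0, ?_⟩
    rw [map_zero, hw, elt]
    simp
  obtain ⟨a, w', ha, hww', i, hi⟩ := exists_scaling O w hw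
  have hy : elt gK w = algebraMap K _ a * tau O gK hg (elt (gO O gK hg) w') := by
    rw [tau_elt, elt, elt, Finset.mul_sum]
    refine Finset.sum_congr rfl fun k _ => ?_
    rw [Algebra.smul_def, Algebra.smul_def, ← mul_assoc, ← map_mul]
    congr 2
    exact hww' k
  by_cases haO : a ∈ O
  · refine ⟨algebraMap O _ ⟨a, haO⟩ * elt (gO O gK hg) w', ?_⟩
    rw [map_mul, tau_algebraMap, hy]
  exfalso
  have hai : a⁻¹ ∈ O := (O.mem_or_inv_mem a).resolve_left haO
  set α : O := ⟨a⁻¹, hai⟩ with hα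
  have hψα : ψ α = 0 := by
    by_contra hne
    obtain ⟨β, hβ⟩ := (hψ α hne).exists_right_inv
    have h1 : a⁻¹ * (β : K) = 1 := congrArg Subtype.val hβ
    have h2 : (β : K) = a := by
      have h3 : a * (a⁻¹ * (β : K)) = a := by rw [h1, mul_one]
      rwa [mul_inv_cancel_left₀ ha] at h3
    exact haO (h2 ▸ β.2)
  set y0 := elt (gO O gK hg) w' with hy0
  have hphi0 : phi O ψ gK hg T hT0 y0 ≠ 0 := phi_elt_ne O ψ gK hg T hT0 hTli w' i hi
  set A : Alg (e+1) (gO O gK hg) := algebraMap O _ α with hA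
  have hAa : tau O gK hg A * algebraMap K _ a = 1 := by
    rw [hA, tau_algebraMap, ← map_mul, hα, inv_mul_cancel₀ ha, map_one]
  have hsp : ∀ (R : Type) [CommRing R] (x : R), x ^ p = x ^ (p - 1) * x := by
    intro R _ x
    rw [← pow_succ, Nat.sub_add_cancel (by omega)]
  have h5 : tau O gK hg (y0 ^ p - A ^ (p - 1) * y0) = tau O gK hg (A ^ p * z) := by
    have h6 : tau O gK hg A ^ p * (elt gK w ^ p - elt gK w) =
        tau O gK hg A ^ p * tau O gK hg z := by rw [h]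
    rw [map_sub, map_mul, map_pow, map_mul, map_pow, map_pow, ← h6, hy]
    have h7 : tau O gK hg A ^ p * (algebraMap K _ a * tau O gK hg y0) ^ p =
        tau O gK hg y0 ^ p := by
      rw [← mul_pow, ← mul_assoc, hAa, one_mul]
    have h8 : tau O gK hg A ^ p * (algebraMap K _ a * tau O gK hg y0) =
        tau O gK hg A ^ (p - 1) * tau O gK hg y0 := by
      rw [hsp _ (tau O gK hg A), mul_assoc, ← mul_assoc (tau O gK hg A), hAa, one_mul]
    rw [mul_sub, h7, h8]
  have h9 := congrArg (phi O ψ gK hg T hT0) (tau_injective O gK hg h5)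
  have hphiA : phi O ψ gK hg T hT0 A = 0 := by
    rw [hA, phi_algebraMap, hψα, map_zero]
  rw [map_sub, map_mul, map_pow, map_mul, map_pow, map_pow, hphiA, zero_pow (by omega),
    zero_pow (by omega), zero_mul, zero_mul, sub_zero] at h9
  exact hphi0 (pow_eq_zero_iff (by omega) |>.1 h9)

end alg

section main

variable {K : Type} [Field K] [FirstOrder.Ring.CompatibleRing K]

/-- definability of the relation -/
theorem D_rel {L : Type} [Field L] [Algebra K L] [FiniteDimensional K L] {U : Set K} (hU : DfS U)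
    (ϖ : L) {e : ℕ} (b : Fin (e+1) → L) (p n : ℕ) :
    D K (fun v : Fin 1 ⊕ Fin n → L => ∃ (y : L) (w : Fin (e+1) → L),
      (∀ k, ∃ x ∈ U, algebraMap K L x = w k) ∧
      (∏ k, v (Sum.inr k)) * v (Sum.inl 0) - (y ^ p - y) = ∑ k, ϖ * w k * b k) := by
  have hA := Pool.Agent.N616.NH.DFA
  have hB := Pool.Agent.N616.NH.DFB
  have h0 : D K (fun v : Fin 1 → L => ∃ x ∈ U, algebraMap K L x = v 0) := VD_.dfl_subU hU
  have h1 : D K (fun v : ((Fin 1 ⊕ Fin n) ⊕ Fin 1) ⊕ Fin (e+1) → L =>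
      (∀ k, ∃ x ∈ U, algebraMap K L x = v (Sum.inr k)) ∧
      MvPolynomial.eval v ((∏ k, MvPolynomial.X (Sum.inl (Sum.inl (Sum.inr k)))) *
        MvPolynomial.X (Sum.inl (Sum.inl (Sum.inl 0))) -
        (MvPolynomial.X (Sum.inl (Sum.inr 0)) ^ p - MvPolynomial.X (Sum.inl (Sum.inr 0))) -
        ∑ k, MvPolynomial.C ϖ * MvPolynomial.X (Sum.inr k) * MvPolynomial.C (b k)) = 0) :=
    D_and hA (D_forall hA hB fun k => D_mem hA (A := fun z => ∃ x ∈ U, algebraMap K L x = z) h0 _)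
      (D_poly hB _)
  refine D_congr (fun v => ?_) (D_ex1 hA (D_ex hA h1))
  simp only [map_sub, map_mul, map_prod, map_pow, map_sum, MvPolynomial.eval_X,
    MvPolynomial.eval_C, Sum.elim_inr, Sum.elim_inl, sub_eq_zero]

theorem no_pat (n : ℕ) (hK : NIPnField n K) (P : Place K)
    (hult : ∀ a b : P.F, ‖a + b‖ ≤ max ‖a‖ ‖b‖) (U : Set K) (hU : DfS U) (ε : ℝ) (hε : 0 < ε)
    (hU1 : ∀ (x : K) (h : x ∈ P.O), ‖P.res ⟨x, h⟩‖ ≤ ε → x ∈ U)
    (hU2 : ∀ x ∈ U, ∃ h : x ∈ P.O, ‖P.res ⟨x, h⟩‖ ≤ 1 / ε) {p : ℕ} (hp : p.Prime)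
    (E : Type) [NontriviallyNormedField E] [IsUltrametricDist E] [NormedAlgebra P.F E]
    [FiniteDimensional P.F E] [Algebra.IsSeparable P.F E] : ¬ ∀ N, Pat E p N := by
  classical
  intro hpat
  have hψ := P.isUnit_of_res_ne_zero
  obtain ⟨e, hrank⟩ : ∃ e, Module.finrank P.F E = e + 1 :=
    ⟨Module.finrank P.F E - 1, by have := Module.finrank_pos (R := P.F) (M := E); omega⟩
  have hdense1 : ∀ n : ℕ, DenseRange (fun (g : Fin n → P.O) (k : Fin n) => P.res (g k)) := fun n =>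
    DenseRange.piMap (fun _ : Fin n => P.denseRange)
  obtain ⟨c₀, hc₀⟩ := P1_normed (F := P.F) E (e+1) hrank
  obtain ⟨gS, T, hT0', hTli⟩ := pick (hdense1 (e+1)) hc₀
  set gK : Fin (e+1) → K := fun k => (gS k : K) with hgK
  have hg : ∀ k, gK k ∈ P.O := fun k => (gS k).2
  have hT0 : ev (e+1) T (fun k => P.res (gO P.O gK hg k)) = 0 := hT0'
  have hirr : Fact (Irreducible (mpoly (e+1) gK)) := ⟨irred P.O P.res gK hg hrank T hT0 hTli⟩
  let L : Type := Alg (e+1) gK
  let _ : Field L := AdjoinRoot.instField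
  have hfinL : FiniteDimensional K L := Module.Finite.of_basis (algBasis (e+1) gK)
  set τ := tau P.O gK hg with hτ
  set φ := phi P.O P.res gK hg T hT0 with hφ
  -- coordinates
  have hcard : Fintype.card (Fin (e+1)) = Module.finrank P.F E := by rw [hrank, Fintype.card_fin]
  let b' : Module.Basis (Fin (e+1)) P.F E := basisOfLinearIndependentOfCardEqFinrank hTli hcard
  have hb' : ∀ k, b' k = T ^ (k : ℕ) := fun k => by
    simp only [b', coe_basisOfLinearIndependentOfCardEqFinrank]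
  have hcoord : Continuous (fun x : E => (b'.equivFun x : Fin (e+1) → P.F)) :=
    LinearMap.continuous_of_finiteDimensional (b'.equivFun : E →ₗ[P.F] (Fin (e+1) → P.F))
  have hcoordφ : ∀ w : Fin (e+1) → P.O, b'.equivFun (φ (elt (gO P.O gK hg) w)) =
      fun k => P.res (w k) := by
    intro w
    rw [hφ, phi_elt]
    have : ∑ k, P.res (w k) • T ^ (k : ℕ) = ∑ k, P.res (w k) • b' k :=
      Finset.sum_congr rfl fun k _ => by rw [hb']
    rw [this]
    funext k
    exact congrFun (b'.equivFun_symm_apply (fun k => P.res (w k)) ▸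
      b'.equivFun.apply_symm_apply (fun k => P.res (w k))) k
  -- density
  have hφd : DenseRange φ := by
    have hΦc : Continuous (fun c : Fin (e+1) → P.F => b'.equivFun.symm c) :=
      LinearMap.continuous_of_finiteDimensional (b'.equivFun.symm : (Fin (e+1) → P.F) →ₗ[P.F] E)
    have h1 : DenseRange (fun w : Fin (e+1) → P.O => b'.equivFun.symm (fun k => P.res (w k))) :=
      (b'.equivFun.symm.surjective.denseRange).comp (hdense1 (e+1)) hΦc
    have h2 : (fun w : Fin (e+1) → P.O => b'.equivFun.symm (fun k => P.res (w k))) =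
        φ ∘ (fun w => elt (gO P.O gK hg) w) := by
      funext w
      show _ = φ (elt (gO P.O gK hg) w)
      rw [← hcoordφ w, LinearEquiv.symm_apply_apply]
    rw [h2] at h1
    exact h1.mono (Set.range_comp_subset_range _ _)
  -- the scale
  obtain ⟨C, hC1, hC⟩ : ∃ C : ℝ, 1 ≤ C ∧ ∀ k : Fin (e+1), ‖T ^ (k : ℕ)‖ ≤ C := by
    refine ⟨1 + ∑ k : Fin (e+1), ‖T ^ (k : ℕ)‖, ?_, fun k => ?_⟩
    · have : 0 ≤ ∑ k : Fin (e+1), ‖T ^ (k : ℕ)‖ := Finset.sum_nonneg fun _ _ => norm_nonneg _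
      linarith
    · have := Finset.single_le_sum (f := fun k : Fin (e+1) => ‖T ^ (k : ℕ)‖)
        (fun _ _ => norm_nonneg _) (Finset.mem_univ k)
      linarith
  have hCpos : 0 < C := by linarith
  obtain ⟨a1, ha10, ha1⟩ := NormedField.exists_norm_lt P.F (r := ε / (2 * C)) (by positivity)
  obtain ⟨ϖ, hϖ0, hϖ⟩ := pick P.denseRange (y := a1) (Q := fun y => 0 < ‖y‖ ∧ ‖y‖ < ε / (2 * C)) (by
    have h1 : Continuous fun y : P.F => ‖y‖ := continuous_norm
    exact (continuousAt_const.eventually_lt h1.continuousAt ha10).and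
      (h1.continuousAt.eventually_lt continuousAt_const ha1))
  have hϖne : P.res ϖ ≠ 0 := norm_pos_iff.1 hϖ0
  obtain ⟨ϖ', hϖ'⟩ := (hψ ϖ hϖne).exists_left_inv
  -- small elements have small coordinates
  obtain ⟨δ, hδ0, hδ⟩ : ∃ δ > 0, ∀ x : E, ‖x‖ < δ → ∀ k, ‖b'.equivFun x k‖ < ε * ‖P.res ϖ‖ := by
    have h1 := (hcoord.tendsto (0 : E))
    rw [map_zero] at h1
    have h2 : ∀ᶠ x in 𝓝 (0 : E), ‖b'.equivFun x‖ < ε * ‖P.res ϖ‖ := by
      have h3 := h1.norm.eventually_lt (tendsto_const_nhds (x := ε * ‖P.res ϖ‖)) (by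
        rw [norm_zero]
        positivity)
      exact h3
    obtain ⟨δ, hδ0, hδ⟩ := Metric.eventually_nhds_iff.1 h2
    refine ⟨δ, hδ0, fun x hx k => lt_of_le_of_lt (norm_le_pi_norm _ k) (hδ ?_)⟩
    rw [dist_zero_right]
    exact hx
  -- the neighbourhood
  let ϖL : L := algebraMap K L (ϖ : K)
  let bL : Fin (e+1) → L := fun k => algBasis (e+1) gK k
  let W : L → Prop := fun z => ∃ w : Fin (e+1) → L,
    (∀ k, ∃ x ∈ U, algebraMap K L x = w k) ∧ z = ∑ k, ϖL * w k * bL k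
  have hW1 : ∀ z : Alg (e+1) (gO P.O gK hg), ‖φ z‖ < δ → W (τ z) := by
    intro z hz
    obtain ⟨w, rfl⟩ := exists_elt (gO P.O gK hg) z
    have h1 := hδ _ hz
    rw [hcoordφ] at h1
    refine ⟨fun k => algebraMap K L ((ϖ' : K) * (w k : K)), fun k => ⟨(ϖ' : K) * (w k : K), ?_, rfl⟩, ?_⟩
    · refine hU1 _ (P.O.mul_mem _ _ ϖ'.2 (w k).2) ?_
      have h2 : (⟨(ϖ' : K) * (w k : K), P.O.mul_mem _ _ ϖ'.2 (w k).2⟩ : P.O) = ϖ' * w k := rfl
      rw [h2, map_mul, norm_mul]
      have h3 : ‖P.res ϖ'‖ * ‖P.res ϖ‖ = 1 := by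
        rw [← norm_mul, ← map_mul, hϖ', map_one, norm_one]
      have h4 := (h1 k).le
      calc ‖P.res ϖ'‖ * ‖P.res (w k)‖ ≤ ‖P.res ϖ'‖ * (ε * ‖P.res ϖ‖) :=
            mul_le_mul_of_nonneg_left h4 (norm_nonneg _)
        _ = ε * (‖P.res ϖ'‖ * ‖P.res ϖ‖) := by ring
        _ = ε := by rw [h3, mul_one]
    · rw [hτ, tau_elt, elt]
      refine Finset.sum_congr rfl fun k _ => ?_
      have h2 : (ϖ : K) * ((ϖ' : K) * (w k : K)) = w k := by
        have h3 : (ϖ' : K) * (ϖ : K) = 1 := congrArg Subtype.val hϖ'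
        rw [← mul_assoc, mul_comm (ϖ : K), h3, one_mul]
      show ((w k : P.O) : K) • algBasis (e+1) gK k =
        algebraMap K L (ϖ : K) * algebraMap K L ((ϖ' : K) * (w k : K)) * algBasis (e+1) gK k
      rw [← map_mul, h2, Algebra.smul_def]
  have hW2 : ∀ z : L, W z → ∃ z' : Alg (e+1) (gO P.O gK hg), τ z' = z ∧ ‖φ z'‖ < 1 := by
    rintro z ⟨w, hw, rfl⟩
    choose x hxU hx using hw
    choose hxO hxn using fun k => hU2 (x k) (hxU k)
    refine ⟨elt (gO P.O gK hg) (fun k => ϖ * ⟨x k, hxO k⟩), ?_, ?_⟩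
    · rw [hτ, tau_elt, elt]
      refine Finset.sum_congr rfl fun k _ => ?_
      show (((ϖ * ⟨x k, hxO k⟩ : P.O)) : K) • algBasis (e+1) gK k =
        algebraMap K L (ϖ : K) * w k * algBasis (e+1) gK k
      rw [← hx k, ← map_mul, Algebra.smul_def]
      rfl
    · rw [hφ, phi_elt]
      refine lt_of_le_of_lt (norm_sum_le' (E := E) _ _ (1 / 2) (by norm_num) fun k _ => ?_) (by norm_num)
      rw [norm_smul, map_mul, norm_mul]
      calc ‖P.res ϖ‖ * ‖P.res ⟨x k, hxO k⟩‖ * ‖T ^ (k : ℕ)‖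
          ≤ (ε / (2 * C)) * (1 / ε) * C := by
            refine mul_le_mul (mul_le_mul hϖ.le (hxn k) (norm_nonneg _) (by positivity)) (hC k)
              (norm_nonneg _) (by positivity)
        _ = 1 / 2 := by field_simp
  -- the relation
  have hq := D_rel (K := K) (L := L) hU ϖL bL p n
  refine NP_.nipnL K n hK L _ hq fun m => ?_
  obtain ⟨u, hu⟩ := hpat (m ^ n)
  choose x hx using hu
  -- approximation of `u`
  have hδ1 : 0 < min δ 1 := lt_min hδ0 one_pos
  obtain ⟨u', hu'⟩ := pick hφd (y := u) (Q := fun v => ∀ (S : Finset (Fin (m ^ n))) (i : Fin (m ^ n)),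
      ‖v ^ (i : ℕ) * x S - u ^ (i : ℕ) * x S‖ < min δ 1) (by
    rw [eventually_all]
    intro S
    rw [eventually_all]
    intro i
    have h1 : Continuous fun v : E => ‖v ^ (i : ℕ) * x S - u ^ (i : ℕ) * x S‖ := by fun_prop
    exact h1.continuousAt.eventually_lt continuousAt_const (by simpa using hδ1))
  choose x' hx' using fun S : Finset (Fin (m ^ n)) => pick hφd (y := x S)
    (Q := fun v => ∀ i : Fin (m ^ n), ‖φ u' ^ (i : ℕ) * v - φ u' ^ (i : ℕ) * x S‖ < min δ 1) (by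
      rw [eventually_all]
      intro i
      have h1 : Continuous fun v : E => ‖φ u' ^ (i : ℕ) * v - φ u' ^ (i : ℕ) * x S‖ := by fun_prop
      exact h1.continuousAt.eventually_lt continuousAt_const (by simpa using hδ1))
  have happ : ∀ (S : Finset (Fin (m ^ n))) (i : Fin (m ^ n)),
      ‖φ (u' ^ (i : ℕ) * x' S) - u ^ (i : ℕ) * x S‖ < min δ 1 := by
    intro S i
    have e1 : φ (u' ^ (i : ℕ) * x' S) - u ^ (i : ℕ) * x S =
        (φ u' ^ (i : ℕ) * φ (x' S) - φ u' ^ (i : ℕ) * x S) +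
        (φ u' ^ (i : ℕ) * x S - u ^ (i : ℕ) * x S) := by
      rw [map_mul, map_pow]
      ring
    rw [e1]
    exact (IsUltrametricDist.norm_add_le_max _ _).trans_lt (max_lt (hx' S i) (hu' S i))
  let Ex : (Fin n → Fin m) → Fin (m ^ n) := fun i => ⟨NP_.ex n m i, NP_.ex_lt n m i⟩
  have hEx : Function.Injective Ex := fun i j h => NP_.ex_inj n m (congrArg Fin.val h)
  refine ⟨fun k i => (τ u' : L) ^ ((i : ℕ) * m ^ (k : ℕ)), fun S => ?_⟩
  let S' : Finset (Fin (m ^ n)) := Finset.univ.filter fun e => ∃ i, i ∉ S ∧ Ex i = e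
  refine ⟨τ (x' S'), fun i => ?_⟩
  have hS' : Ex i ∈ S' ↔ i ∉ S := by
    simp only [S', Finset.mem_filter, Finset.mem_univ, true_and]
    constructor
    · rintro ⟨j, hj, hij⟩
      rwa [← hEx hij]
    · intro h
      exact ⟨i, h, rfl⟩
  have hprod : ∏ k : Fin n, (τ u' : L) ^ (((i k : Fin m) : ℕ) * m ^ (k : ℕ)) =
      (τ u' : L) ^ ((Ex i : Fin (m ^ n)) : ℕ) := by
    rw [Finset.prod_pow_eq_pow_sum]
    rfl
  simp only [Sum.elim_inl, Sum.elim_inr]
  rw [hprod]
  have hz : (τ u' : L) ^ ((Ex i : Fin (m ^ n)) : ℕ) * τ (x' S') =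
      τ (u' ^ ((Ex i : Fin (m ^ n)) : ℕ) * x' S') := by
    rw [map_mul, map_pow]
  rw [hz]
  have hxi := hx S' (Ex i)
  constructor
  · rintro ⟨y, w, hw, hyw⟩
    by_contra hi
    obtain ⟨w', hw'1, hw'2⟩ := hW2 _ ⟨w, hw, hyw⟩
    have h1 : y ^ p - y = τ (u' ^ ((Ex i : Fin (m ^ n)) : ℕ) * x' S' - w') := by
      rw [map_sub, hw'1]
      ring
    obtain ⟨y', hy'⟩ := mem_tau_of_pow_sub P.O P.res gK hg hψ T hT0 hTli hp.two_le y _ h1
    have h2 : y' ^ p - y' = u' ^ ((Ex i : Fin (m ^ n)) : ℕ) * x' S' - w' := by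
      apply tau_injective P.O gK hg
      rw [map_sub, map_pow, hy']
      exact h1
    have h3 := congrArg φ h2
    rw [map_sub, map_pow, map_sub] at h3
    have h4 := hxi.2 (hS'.2 hi) (φ y')
    have h5 : u ^ ((Ex i : Fin (m ^ n)) : ℕ) * x S' - (φ y' ^ p - φ y') =
        φ w' - (φ (u' ^ ((Ex i : Fin (m ^ n)) : ℕ) * x' S') -
          u ^ ((Ex i : Fin (m ^ n)) : ℕ) * x S') := by
      rw [h3]
      ring
    rw [h5] at h4
    have h6 := (norm_sub_le_max' (φ w') (φ (u' ^ ((Ex i : Fin (m ^ n)) : ℕ) * x' S') -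
          u ^ ((Ex i : Fin (m ^ n)) : ℕ) * x S')).trans_lt
      (max_lt hw'2 ((happ S' (Ex i)).trans_le (min_le_right _ _)))
    exact absurd h4 (not_le.2 h6)
  · intro hi
    obtain ⟨y, hy⟩ := hxi.1 (fun h => (hS'.1 h) hi)
    obtain ⟨y', hy'⟩ := pick hφd (y := y) (Q := fun v => ‖(v ^ p - v) - (y ^ p - y)‖ < δ) (by
      have h1 : Continuous fun v : E => ‖(v ^ p - v) - (y ^ p - y)‖ := by fun_prop
      exact h1.continuousAt.eventually_lt continuousAt_const (by simpa using hδ0))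
    have h1 : ‖φ (u' ^ ((Ex i : Fin (m ^ n)) : ℕ) * x' S' - (y' ^ p - y'))‖ < δ := by
      have e1 : φ (u' ^ ((Ex i : Fin (m ^ n)) : ℕ) * x' S' - (y' ^ p - y')) =
          (φ (u' ^ ((Ex i : Fin (m ^ n)) : ℕ) * x' S') -
            u ^ ((Ex i : Fin (m ^ n)) : ℕ) * x S') -
          ((φ y' ^ p - φ y') - (y ^ p - y)) := by
        rw [hy, map_sub φ _ (y' ^ p - y'), map_sub φ (y' ^ p), map_pow φ y']
        ring
      rw [e1]
      exact (norm_sub_le_max' _ _).trans_lt
        (max_lt ((happ S' (Ex i)).trans_le (min_le_left _ _)) hy')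
    obtain ⟨w, hw1, hw2⟩ := hW1 _ h1
    refine ⟨τ y', w, hw1, ?_⟩
    rw [map_sub, map_sub, map_pow τ y'] at hw2
    exact hw2

end main

end Pool.Agent.T9h43.MC
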