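import Pool.Agent.T9h43.MC.Kum
import Pool.Agent.N616.NH.KSW

set_option autoImplicit false

/-! The case of equal characteristic. -/

namespace Pool.Agent.T9h43.MC

section normed

variable {E : Type*} [NontriviallyNormedField E] [IsUltrametricDist E] [CompleteSpace E]

/-- complete fields of characteristic `p` with solutions of Artin-Schreier equations near one are
perfect -/
theorem perfect_of {p : ℕ} (hp : p.Prime) [CharP E p] (t : E) (ht1 : ‖t‖ < 1)
    (hAS : ∀ a : E, ‖a * t‖ ≤ 1 → ∃ x, x ^ p - x = a) (x : E) : ∃ y, y ^ p = x := by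
  classical
  have : Fact p.Prime := ⟨hp⟩
  obtain ⟨c, hc0, hc1, hA⟩ := approx hp t ht1 hAS
  have h1 : ∀ n : ℕ, ∃ y : E, ‖x - y ^ p‖ ≤ c ^ n * ‖x‖ := by
    intro n
    induction n with
    | zero => exact ⟨0, by rw [zero_pow hp.ne_zero, sub_zero, pow_zero, one_mul]⟩
    | succ n ih =>
      obtain ⟨y, hy⟩ := ih
      by_cases h0 : x - y ^ p = 0
      · refine ⟨y, ?_⟩
        rw [h0, norm_zero]
        positivity
      · obtain ⟨z, hz⟩ := hA _ h0
        refine ⟨y + z, ?_⟩
        rw [add_pow_char, ← sub_sub]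
        calc ‖x - y ^ p - z ^ p‖ ≤ c * ‖x - y ^ p‖ := hz
          _ ≤ c * (c ^ n * ‖x‖) := mul_le_mul_of_nonneg_left hy hc0.le
          _ = _ := by ring
  choose y hy using h1
  have hlim : Filter.Tendsto (fun n => c ^ n * ‖x‖) Filter.atTop (nhds 0) := by
    have := (tendsto_pow_atTop_nhds_zero_of_lt_one hc0.le hc1).mul_const ‖x‖
    rwa [zero_mul] at this
  have hcau : CauchySeq y := by
    rw [Metric.cauchySeq_iff']
    intro ε hε
    obtain ⟨N, hN⟩ := (hlim.eventually (gt_mem_nhds (pow_pos hε p))).exists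
    refine ⟨N, fun n hn => ?_⟩
    rw [dist_eq_norm]
    refine lt_of_pow_lt_pow_left₀ p hε.le ?_
    rw [← norm_pow, sub_pow_char]
    have e : y n ^ p - y N ^ p = (x - y N ^ p) - (x - y n ^ p) := by ring
    rw [e]
    refine (norm_sub_le_max' _ _).trans_lt (max_lt ((hy N).trans_lt hN) ?_)
    refine ((hy n).trans ?_).trans_lt hN
    exact mul_le_mul_of_nonneg_right (pow_le_pow_of_le_one hc0.le hc1.le hn) (norm_nonneg _)
  obtain ⟨w, hw⟩ := cauchySeq_tendsto_of_complete hcau
  refine ⟨w, ?_⟩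
  have h2 : Filter.Tendsto (fun n => y n ^ p) Filter.atTop (nhds (w ^ p)) := hw.pow p
  have h3 : Filter.Tendsto (fun n => x - y n ^ p) Filter.atTop (nhds 0) :=
    squeeze_zero_norm hy hlim
  have h4 : Filter.Tendsto (fun n => x - y n ^ p) Filter.atTop (nhds (x - w ^ p)) :=
    tendsto_const_nhds.sub h2
  have h5 := tendsto_nhds_unique h4 h3
  rw [sub_eq_zero] at h5
  exact h5.symm

/-- they are closed under Artin-Schreier extensions -/
theorem as_closed {p : ℕ} (hp : p.Prime) [CharP E p] (t : E) (ht1 : ‖t‖ < 1)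
    (hAS : ∀ a : E, ‖a * t‖ ≤ 1 → ∃ x, x ^ p - x = a) (a : E) : ∃ x, x ^ p - x = a := by
  have : Fact p.Prime := ⟨hp⟩
  by_cases ht : t = 0
  · refine hAS a ?_
    rw [ht, mul_zero, norm_zero]
    exact zero_le_one
  have htpos : 0 < ‖t‖ := norm_pos_iff.2 ht
  have hroot : ∀ n : ℕ, ∃ b : E, b ^ p ^ n = a := by
    intro n
    induction n with
    | zero => exact ⟨a, by rw [pow_zero, pow_one]⟩
    | succ n ih =>
      obtain ⟨b, hb⟩ := ih
      obtain ⟨c, hc⟩ := perfect_of hp t ht1 hAS b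
      exact ⟨c, by rw [pow_succ', pow_mul, hc, hb]⟩
  have h1 : 1 < ‖t‖⁻¹ := (one_lt_inv₀ htpos).2 ht1
  obtain ⟨n, hn⟩ := pow_unbounded_of_one_lt ‖a‖ h1
  obtain ⟨b, hb⟩ := hroot n
  have hbt : ‖b * t‖ ≤ 1 := by
    by_contra hcon
    rw [not_le, norm_mul] at hcon
    have h2 : ‖t‖⁻¹ < ‖b‖ := by
      rw [inv_lt_iff_one_lt_mul₀ htpos]
      exact hcon
    have h3 : ‖t‖⁻¹ ^ p ^ n < ‖b‖ ^ p ^ n :=
      pow_lt_pow_left₀ h2 (by positivity) (pow_ne_zero _ hp.ne_zero)
    have h4 : ‖t‖⁻¹ ^ n ≤ ‖t‖⁻¹ ^ p ^ n :=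
      pow_le_pow_right₀ h1.le (Nat.lt_pow_self hp.one_lt).le
    rw [← norm_pow, hb] at h3
    linarith
  obtain ⟨x, hx⟩ := hAS b hbt
  refine ⟨x ^ p ^ n, ?_⟩
  have h5 : (x ^ p - x) ^ p ^ n = (x ^ p) ^ p ^ n - x ^ p ^ n := sub_pow_char_pow (p := p) (n := n) ..
  rw [← hb, ← hx, h5, ← pow_mul, ← pow_mul, mul_comm]

end normed

section gal

open IntermediateField Module

/-- cyclic extensions of degree `p` in characteristic `p` -/
theorem exists_as {p : ℕ} (hp : p.Prime) (E N : Type) [Field E] [Field N] [Algebra E N]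
    [CharP N p] (s : N ≃ₐ[E] N) (hs : s ^ p = 1) (hs1 : s ≠ 1) : ∃ y : N, s y = y + 1 := by
  classical
  have : Fact p.Prime := ⟨hp⟩
  have hcE : CharP E p := (algebraMap E N).charP (algebraMap E N).injective p
  let σ : Module.End E N := s.toLinearMap
  have hch : CharP (Module.End E N) p :=
    charP_of_injective_algebraMap (algebraMap E (Module.End E N)).injective p
  have hpow : ∀ k : ℕ, ∀ x, (σ ^ k) x = (s ^ k) x := by
    intro k
    induction k with
    | zero => intro x; rfl
    | succ k ih =>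
      intro x
      rw [pow_succ', pow_succ', Module.End.mul_apply, ih]
      rfl
  have hσp : σ ^ p = 1 := by
    ext x
    rw [hpow, hs]
    rfl
  have hnil : (σ - 1) ^ p = 0 := by
    rw [sub_pow_char_of_commute p (Commute.one_right σ), hσp, one_pow, sub_self]
  have hne : σ - 1 ≠ 0 := by
    intro h
    apply hs1
    ext x
    have h1 := LinearMap.congr_fun (sub_eq_zero.1 h) x
    exact h1
  have hex : ∃ k, (σ - 1) ^ k = 0 := ⟨p, hnil⟩
  set k := Nat.find hex with hk
  have hk0 : (σ - 1) ^ k = 0 := Nat.find_spec hex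
  have hkm : ∀ m < k, (σ - 1) ^ m ≠ 0 := fun m hm => Nat.find_min hex hm
  have hk2 : 2 ≤ k := by
    by_contra hcon
    push Not at hcon
    interval_cases h : k
    · rw [pow_zero] at hk0
      exact one_ne_zero hk0
    · rw [pow_one] at hk0
      exact hne hk0
  obtain ⟨z, hz⟩ : ∃ z, ((σ - 1) ^ (k - 1)) z ≠ 0 := by
    by_contra hcon
    push Not at hcon
    exact hkm (k - 1) (by omega) (LinearMap.ext hcon)
  set w := ((σ - 1) ^ (k - 1)) z with hw
  set v := ((σ - 1) ^ (k - 2)) z with hv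
  have h1 : (σ - 1) w = 0 := by
    rw [hw, ← Module.End.mul_apply, ← pow_succ', Nat.sub_add_cancel (by omega), hk0]
    rfl
  have h2 : (σ - 1) v = w := by
    rw [hv, hw, ← Module.End.mul_apply, ← pow_succ']
    congr 2
    omega
  have h3 : s w = w := by
    have : s w - w = 0 := h1
    exact sub_eq_zero.1 this
  have h4 : s v = v + w := by
    have : s v - v = w := h2
    rw [← this]
    ring
  refine ⟨v / w, ?_⟩
  rw [map_div₀, h3, h4, add_div, div_self hz]

theorem not_dvd_finrank_char (F : Type) [Field F] {p : ℕ} (hp : p.Prime) [CharP F p]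
    (hperf : ∀ x : F, ∃ y, y ^ p = x)
    (h : ∀ (E : Type) [Field E] [Algebra F E] [FiniteDimensional F E],
      ∀ x : E, ∃ y, y ^ p - y = x)
    (M : Type) [Field M] [Algebra F M] [FiniteDimensional F M] : ¬ p ∣ finrank F M := by
  classical
  intro hdvd
  have hpf : Fact p.Prime := ⟨hp⟩
  have : PerfectRing F p := PerfectRing.ofSurjective F p fun x => by
    obtain ⟨y, hy⟩ := hperf x
    exact ⟨y, hy⟩
  have : PerfectField F := PerfectRing.toPerfectField F p
  let C := AlgebraicClosure F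
  let φ : M →ₐ[F] C := IsAlgClosed.lift
  have hfφ : FiniteDimensional F φ.fieldRange :=
    (AlgEquiv.ofInjectiveField φ).toLinearEquiv.finiteDimensional
  let N : IntermediateField F C := normalClosure F φ.fieldRange C
  have hfN : FiniteDimensional F N := inferInstance
  have hnN : Normal F N := inferInstance
  have hgN : IsGalois F N := ⟨⟩
  have hSN : φ.fieldRange ≤ N := le_normalClosure _
  have hcN : CharP N p := charP_of_injective_algebraMap (algebraMap F N).injective p
  have hM : finrank F M = finrank F φ.fieldRange :=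
    (AlgEquiv.ofInjectiveField φ).toLinearEquiv.finrank_eq
  have hdN : p ∣ finrank F N := by
    rw [hM] at hdvd
    refine hdvd.trans ?_
    rw [← finrank_bot_mul_relfinrank hSN]
    exact dvd_mul_right _ _
  rw [← IsGalois.card_aut_eq_finrank] at hdN
  obtain ⟨g, hg⟩ := exists_prime_orderOf_dvd_card' p hdN
  let E : IntermediateField F N := fixedField (Subgroup.zpowers g)
  have hEmem : ∀ x : N, x ∈ E ↔ g x = x := by
    intro x
    rw [mem_fixedField_iff]
    constructor
    · intro h1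
      exact h1 g (Subgroup.mem_zpowers g)
    · intro h1 f hf
      obtain ⟨k, rfl⟩ := Subgroup.mem_zpowers_iff.1 hf
      have h3 : g ∈ MulAction.stabilizer (N ≃ₐ[F] N) x := h1
      exact (MulAction.stabilizer (N ≃ₐ[F] N) x).zpow_mem h3 k
  let s : N ≃ₐ[E] N := AlgEquiv.ofRingEquiv (f := (g : N ≃+* N)) (fun e => (hEmem _).1 e.2)
  have hsg : ∀ x, s x = g x := fun _ => rfl
  have hsk : ∀ k : ℕ, ∀ x, (s ^ k) x = (g ^ k) x := by
    intro k
    induction k with
    | zero => intro x; rfl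
    | succ k ih =>
      intro x
      rw [pow_succ', pow_succ', AlgEquiv.mul_apply, AlgEquiv.mul_apply, ih, hsg]
  have hs : s ^ p = 1 := by
    ext x : 1
    rw [hsk, ← hg, pow_orderOf_eq_one]
    rfl
  have hs1 : s ≠ 1 := by
    intro h1
    have h2 : g = 1 := by
      ext x : 1
      rw [← hsg, h1]
      rfl
    rw [h2, orderOf_one] at hg
    exact hp.ne_one hg.symm
  obtain ⟨y, hy⟩ := exists_as hp E N s hs hs1
  have hfix : y ^ p - y ∈ E := by
    rw [hEmem, ← hsg, map_sub, map_pow, hy, add_pow_char, one_pow]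
    ring
  obtain ⟨e, he⟩ := h E ⟨y ^ p - y, hfix⟩
  have he' : (e : N) ^ p - e = y ^ p - y := congrArg Subtype.val he
  let _ : Algebra (ZMod p) N := ZMod.algebra N p
  obtain ⟨c, hc⟩ := Pool.Agent.N616.NH.KSW_.mem_prime p (z := y - (e : N)) (by
    rw [sub_pow_char]
    linear_combination -he')
  have h6 : s y = y := by
    have h7 : y = (c : N) + e := by
      rw [hc]
      ring
    have h8 : s (e : N) = e := (hEmem _).1 e.2
    rw [h7, map_add, map_natCast, h8]
  rw [h6] at hy
  exact one_ne_zero (left_eq_add.1 hy)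

end gal

end Pool.Agent.T9h43.MC
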