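import Pool.Agent.T9h43.MC.Hens

set_option autoImplicit false

/-! In a complete nonarchimedean field of mixed characteristic with dense value group where
Artin-Schreier equations with right hand side of absolute value near one can be solved, all elements
are `p`-th powers if the field contains the `p`-th roots of unity. -/

namespace Pool.Agent.T9h43.MC

open Finset

section

variable {E : Type*} [NontriviallyNormedField E] [IsUltrametricDist E]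

theorem lam_props {p : ℕ} (hp : p.Prime) (hp0 : (p : E) ≠ 0) (hp1 : ‖(p : E)‖ < 1) {ζ : E}
    (hζ : IsPrimitiveRoot ζ p) : ∃ l : E, l ≠ 0 ∧ ‖l‖ < 1 ∧ ‖l‖ ^ (p - 1) = ‖(p : E)‖ ∧
      ‖(p : E) + l ^ (p - 1)‖ ≤ ‖l‖ ^ p := by
  have hp2 := hp.two_le
  have h1 : ζ ^ p = 1 := hζ.pow_eq_one
  have hn : ‖ζ‖ = 1 := by
    have h2 : ‖ζ‖ ^ p = 1 := by rw [← norm_pow, h1, norm_one]
    exact (pow_eq_one_iff_of_nonneg (norm_nonneg _) hp.ne_zero).1 h2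
  set l : E := ζ - 1 with hl
  have hl0 : l ≠ 0 := sub_ne_zero.2 (hζ.ne_one hp.one_lt)
  have hlpos : 0 < ‖l‖ := norm_pos_iff.2 hl0
  have hl1 : ‖l‖ ≤ 1 := by
    refine (norm_sub_le_max' _ _).trans ?_
    rw [hn, norm_one, max_self]
  have he : (1 + l) ^ p = 1 := by
    rw [hl, add_sub_cancel, h1]
  have hsp : ‖l‖ ^ p = ‖l‖ ^ (p - 1) * ‖l‖ := by
    rw [← pow_succ, Nat.sub_add_cancel hp.pos]
  have ha := norm_add_pow hp (1 : E) l hl1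
  rw [he, one_pow, norm_one, max_self, one_pow, mul_one, sub_self, zero_sub, norm_neg,
    norm_pow, hsp] at ha
  have hb : ‖l‖ ^ (p - 1) ≤ ‖(p : E)‖ := le_of_mul_le_mul_right ha hlpos
  have hl2 : ‖l‖ < 1 := by
    by_contra hcon
    rw [not_lt] at hcon
    have := one_le_pow₀ hcon (n := p - 1)
    linarith
  have hc := one_add_pow hp l hl1
  have e1 : (1 + l) ^ p - 1 - l ^ p - p * l = -(l * ((p : E) + l ^ (p - 1))) := by
    rw [he]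
    have : l ^ p = l ^ (p - 1) * l := by rw [← pow_succ, Nat.sub_add_cancel hp.pos]
    rw [this]
    ring
  rw [e1, norm_neg, norm_mul] at hc
  have hd : ‖(p : E) + l ^ (p - 1)‖ ≤ ‖(p : E)‖ * ‖l‖ := by
    refine le_of_mul_le_mul_left ?_ hlpos
    calc _ ≤ _ := hc
      _ = _ := by ring
  have hpp : 0 < ‖(p : E)‖ := norm_pos_iff.2 hp0
  have hf : ‖(p : E) - (-(l ^ (p - 1)))‖ < ‖(p : E)‖ := by
    rw [sub_neg_eq_add]
    refine hd.trans_lt ?_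
    calc ‖(p : E)‖ * ‖l‖ < ‖(p : E)‖ * 1 := mul_lt_mul_of_pos_left hl2 hpp
      _ = _ := mul_one _
  have hg := norm_eq_of_sub_lt hf
  rw [norm_neg, norm_pow] at hg
  refine ⟨l, hl0, hl2, hg, ?_⟩
  rw [hsp, hg]
  exact hd

variable {p : ℕ} (hp : p.Prime) {l : E} (hl0 : l ≠ 0) (hl1 : ‖l‖ < 1)
  (hl2 : ‖l‖ ^ (p - 1) = ‖(p : E)‖) (hl3 : ‖(p : E) + l ^ (p - 1)‖ ≤ ‖l‖ ^ p)

include hp hl2 hl3 in
theorem lam_err (Y : E) (hY : ‖l * Y‖ ≤ 1) :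
    ‖(1 + l * Y) ^ p - 1 - l ^ p * (Y ^ p - Y)‖ ≤ ‖l‖ ^ (p + 1) * max ‖Y‖ (‖Y‖ ^ 2) := by
  have hlp : l ^ p = l ^ (p - 1) * l := by rw [← pow_succ, Nat.sub_add_cancel hp.pos]
  have e1 : (1 + l * Y) ^ p - 1 - l ^ p * (Y ^ p - Y) =
      ((1 + l * Y) ^ p - 1 - (l * Y) ^ p - p * (l * Y)) + ((p : E) + l ^ (p - 1)) * (l * Y) := by
    rw [mul_pow, hlp]
    ring
  rw [e1]
  refine (IsUltrametricDist.norm_add_le_max _ _).trans (max_le ?_ ?_)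
  · refine (one_add_pow hp _ hY).trans ?_
    have e2 : ‖(p : E)‖ * ‖l * Y‖ ^ 2 = ‖l‖ ^ (p + 1) * ‖Y‖ ^ 2 := by
      rw [norm_mul, mul_pow, ← hl2, ← mul_assoc, ← pow_add]
      congr 2
      have := hp.two_le
      omega
    rw [e2]
    exact mul_le_mul_of_nonneg_left (le_max_right _ _) (by positivity)
  · rw [norm_mul, norm_mul]
    calc ‖(p : E) + l ^ (p - 1)‖ * (‖l‖ * ‖Y‖) ≤ ‖l‖ ^ p * (‖l‖ * ‖Y‖) :=
          mul_le_mul_of_nonneg_right hl3 (by positivity)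
      _ = ‖l‖ ^ (p + 1) * ‖Y‖ := by ring
      _ ≤ _ := mul_le_mul_of_nonneg_left (le_max_left _ _) (by positivity)

/-- the quotient by a `p`-th power -/
theorem div_step {z w e : E} (hw : ‖w‖ < 1) (h : 1 + z = (1 + w) ^ p - e) :
    ∃ z', 1 + z = (1 + w) ^ p * (1 + z') ∧ ‖z'‖ = ‖e‖ := by
  have h1 : ‖(1 : E) + w‖ = 1 := by
    have h2 : ‖(1 : E) - (1 + w)‖ < ‖(1 : E)‖ := by
      rw [norm_one]
      have : (1 : E) - (1 + w) = -w := by ring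
      rw [this, norm_neg]
      exact hw
    rw [norm_eq_of_sub_lt h2, norm_one]
  have h0 : (1 : E) + w ≠ 0 := by
    intro h3
    rw [h3, norm_zero] at h1
    exact zero_ne_one h1
  refine ⟨-e / (1 + w) ^ p, ?_, ?_⟩
  · rw [mul_add, mul_one, mul_div_cancel₀ _ (pow_ne_zero _ h0), h]
    ring
  · rw [norm_div, norm_neg, norm_pow, h1, one_pow, div_one]

variable [CompleteSpace E]

theorem pow_near_one {p : ℕ} (hp0 : (p : E) ≠ 0) :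
    ∃ ε > 0, ∀ w : E, ‖w‖ < ε → ∃ y, y ^ p = 1 + w := by
  have h : HasStrictDerivAt (fun x : E => x ^ p) ((p : E) * 1 ^ (p - 1)) 1 :=
    hasStrictDerivAt_pow p 1
  have h2 := h.map_nhds_eq (by simpa using hp0)
  have h3 : Set.range (fun x : E => x ^ p) ∈ nhds ((1 : E) ^ p) := by
    rw [← h2]
    exact Filter.mem_map.2 (Filter.mem_of_superset Filter.univ_mem fun x _ => ⟨x, rfl⟩)
  rw [one_pow, Metric.mem_nhds_iff] at h3
  obtain ⟨ε, hε, h4⟩ := h3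
  refine ⟨ε, hε, fun w hw => ?_⟩
  have h5 : 1 + w ∈ Metric.ball (1 : E) ε := by
    rw [mem_ball_iff_norm, add_sub_cancel_left]
    exact hw
  exact h4 h5

include hp hl0 hl1 hl2 hl3

theorem near_iter (n : ℕ) : ∀ z : E, ‖z‖ < ‖l‖ ^ p →
    ∃ y z' : E, 1 + z = y ^ p * (1 + z') ∧ ‖z'‖ ≤ ‖l‖ ^ n * ‖z‖ := by
  have hlpos : 0 < ‖l‖ := norm_pos_iff.2 hl0
  have hp1 : ‖(p : E)‖ < 1 := by
    rw [← hl2]
    exact pow_lt_one₀ (norm_nonneg _) hl1 (by have := hp.two_le; omega)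
  induction n with
  | zero =>
    intro z _
    exact ⟨1, z, by rw [one_pow, one_mul], by rw [pow_zero, one_mul]⟩
  | succ n ih =>
    intro z hz
    -- one step
    have hlp0 : l ^ p ≠ 0 := pow_ne_zero _ hl0
    have ha : ‖z / l ^ p‖ < 1 := by
      rw [norm_div, norm_pow, div_lt_one (pow_pos hlpos p)]
      exact hz
    obtain ⟨x, hx, hx1⟩ := as_hensel hp (z / l ^ p) 0 hp1 (by
      rw [norm_zero, zero_pow (by have := hp.two_le; omega), mul_zero]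
      exact one_pos) (by
      rw [zero_pow hp.ne_zero, sub_zero, sub_zero]
      exact ha)
    rw [sub_zero] at hx1
    have hxa : ‖x‖ ≤ ‖z / l ^ p‖ := by
      rw [← hx]
      by_cases hx0 : x = 0
      · rw [hx0, norm_zero]
        exact norm_nonneg _
      have h3 : ‖x - (-(x ^ p - x))‖ < ‖x‖ := by
        have e : x - (-(x ^ p - x)) = x ^ p := by ring
        rw [e, norm_pow]
        calc ‖x‖ ^ p < ‖x‖ ^ 1 :=
              pow_lt_pow_right_of_lt_one₀ (norm_pos_iff.2 hx0) hx1 hp.one_lt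
          _ = _ := pow_one _
      have h4 := norm_eq_of_sub_lt h3
      rw [norm_neg] at h4
      rw [h4]
    have hlx : ‖l * x‖ < 1 := by
      rw [norm_mul]
      exact mul_lt_one_of_nonneg_of_lt_one_left (norm_nonneg _) hl1 hx1.le
    have herr := lam_err hp hl2 hl3 x hlx.le
    rw [hx, mul_div_cancel₀ _ hlp0] at herr
    have h5 : 1 + z = (1 + l * x) ^ p - ((1 + l * x) ^ p - 1 - z) := by ring
    obtain ⟨z1, hz1, hz1n⟩ := div_step hlx h5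
    have hmx : max ‖x‖ (‖x‖ ^ 2) ≤ ‖z / l ^ p‖ := by
      refine max_le hxa (le_trans ?_ hxa)
      exact pow_le_of_le_one (norm_nonneg _) hx1.le two_ne_zero
    have h6 : ‖z1‖ ≤ ‖l‖ * ‖z‖ := by
      rw [hz1n]
      refine herr.trans ?_
      calc ‖l‖ ^ (p + 1) * max ‖x‖ (‖x‖ ^ 2) ≤ ‖l‖ ^ (p + 1) * ‖z / l ^ p‖ :=
            mul_le_mul_of_nonneg_left hmx (by positivity)
        _ = ‖l‖ * ‖z‖ := by
            rw [norm_div, norm_pow, pow_succ]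
            field_simp
    have h7 : ‖z1‖ < ‖l‖ ^ p := by
      refine lt_of_le_of_lt (h6.trans ?_) hz
      calc ‖l‖ * ‖z‖ ≤ 1 * ‖z‖ := mul_le_mul_of_nonneg_right hl1.le (norm_nonneg _)
        _ = _ := one_mul _
    obtain ⟨y2, z2, h8, h9⟩ := ih z1 h7
    refine ⟨(1 + l * x) * y2, z2, ?_, ?_⟩
    · rw [hz1, h8, mul_pow, mul_assoc]
    · calc ‖z2‖ ≤ ‖l‖ ^ n * ‖z1‖ := h9
        _ ≤ ‖l‖ ^ n * (‖l‖ * ‖z‖) := mul_le_mul_of_nonneg_left h6 (by positivity)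
        _ = _ := by ring

theorem near_root (hp0 : (p : E) ≠ 0) (z : E) (hz : ‖z‖ < ‖l‖ ^ p) : ∃ y, y ^ p = 1 + z := by
  obtain ⟨ε, hε, h⟩ := pow_near_one (E := E) hp0
  obtain ⟨n, hn⟩ := exists_pow_lt_of_lt_one hε hl1
  obtain ⟨y, z', h1, h2⟩ := near_iter hp hl0 hl1 hl2 hl3 n z hz
  have hz1 : ‖z‖ ≤ 1 := hz.le.trans (pow_le_one₀ (norm_nonneg _) hl1.le)
  have h3 : ‖z'‖ < ε := by
    refine lt_of_le_of_lt (h2.trans ?_) hn
    calc ‖l‖ ^ n * ‖z‖ ≤ ‖l‖ ^ n * 1 := mul_le_mul_of_nonneg_left hz1 (by positivity)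
      _ = _ := mul_one _
  obtain ⟨w, hw⟩ := h z' h3
  exact ⟨y * w, by rw [mul_pow, hw, h1]⟩

theorem scale_root (hp0 : (p : E) ≠ 0) (t : E) (ht : ‖l‖ < ‖t‖) (ht1 : ‖t‖ < 1)
    (hAS : ∀ a : E, ‖a * t‖ ≤ 1 → ∃ x, x ^ p - x = a) (z : E) (hz : ‖z‖ * ‖t‖ ≤ ‖l‖ ^ p) :
    ∃ y, y ^ p = 1 + z := by
  have hlpos : 0 < ‖l‖ := norm_pos_iff.2 hl0
  have htpos : 0 < ‖t‖ := (norm_nonneg _).trans_lt ht
  have hlp0 : l ^ p ≠ 0 := pow_ne_zero _ hl0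
  obtain ⟨x, hx⟩ := hAS (z / l ^ p) (by
    rw [norm_mul, norm_div, norm_pow, div_mul_eq_mul_div, div_le_one (pow_pos hlpos p)]
    exact hz)
  have hza : ‖z / l ^ p‖ ≤ 1 / ‖t‖ := by
    rw [norm_div, norm_pow, div_le_div_iff₀ (pow_pos hlpos p) htpos, one_mul]
    exact hz
  have h1t : 1 ≤ 1 / ‖t‖ := by
    rw [le_div_iff₀ htpos, one_mul]
    exact ht1.le
  have hxm : max ‖x‖ (‖x‖ ^ 2) ≤ 1 / ‖t‖ := by
    rcases le_or_gt ‖x‖ 1 with h | h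
    · exact max_le (h.trans h1t) ((pow_le_one₀ (norm_nonneg _) h).trans h1t)
    · have h2 : ‖x ^ p - (z / l ^ p)‖ < ‖x ^ p‖ := by
        rw [← hx]
        have e : x ^ p - (x ^ p - x) = x := by ring
        rw [e, norm_pow]
        calc ‖x‖ = ‖x‖ ^ 1 := (pow_one _).symm
          _ < ‖x‖ ^ p := pow_lt_pow_right₀ h hp.one_lt
      have h3 := norm_eq_of_sub_lt h2
      have h4 : ‖x‖ ^ p ≤ 1 / ‖t‖ := by
        rw [← norm_pow, ← h3]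
        exact hza
      refine max_le (le_trans ?_ h4) (le_trans ?_ h4)
      · calc ‖x‖ = ‖x‖ ^ 1 := (pow_one _).symm
          _ ≤ ‖x‖ ^ p := pow_le_pow_right₀ h.le hp.one_le
      · exact pow_le_pow_right₀ h.le hp.two_le
  have hlx : ‖l * x‖ < 1 := by
    rw [norm_mul]
    calc ‖l‖ * ‖x‖ ≤ ‖l‖ * (1 / ‖t‖) :=
          mul_le_mul_of_nonneg_left ((le_max_left _ _).trans hxm) (norm_nonneg _)
      _ < 1 := by
          rw [mul_one_div, div_lt_one htpos]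
          exact ht
  have herr := lam_err hp hl2 hl3 x hlx.le
  rw [hx, mul_div_cancel₀ _ hlp0] at herr
  have h5 : 1 + z = (1 + l * x) ^ p - ((1 + l * x) ^ p - 1 - z) := by ring
  obtain ⟨z1, hz1, hz1n⟩ := div_step hlx h5
  have h6 : ‖z1‖ < ‖l‖ ^ p := by
    rw [hz1n]
    refine herr.trans_lt ?_
    calc ‖l‖ ^ (p + 1) * max ‖x‖ (‖x‖ ^ 2) ≤ ‖l‖ ^ (p + 1) * (1 / ‖t‖) :=
          mul_le_mul_of_nonneg_left hxm (by positivity)
      _ = ‖l‖ ^ p * (‖l‖ / ‖t‖) := by ring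
      _ < ‖l‖ ^ p * 1 := by
          refine mul_lt_mul_of_pos_left ?_ (pow_pos hlpos p)
          rw [div_lt_one htpos]
          exact ht
      _ = _ := mul_one _
  obtain ⟨y, hy⟩ := near_root hp hl0 hl1 hl2 hl3 hp0 z1 h6
  exact ⟨(1 + l * x) * y, by rw [mul_pow, hy, hz1]⟩

/-- from small to large radius -/
theorem climb (c : ℝ) (hc0 : 0 < c) (hc1 : c < 1)
    (hA : ∀ x : E, x ≠ 0 → ∃ y, ‖x - y ^ p‖ ≤ c * ‖x‖) (ρ : ℝ) (hρ : 1 < ρ)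
    (hR : ∀ z : E, ‖z‖ ≤ ρ * ‖l‖ ^ p → ‖z‖ < 1 → ∃ y, y ^ p = 1 + z) (n : ℕ) :
    ∀ z : E, ‖z‖ ≤ ρ * (min (1 / c) ρ) ^ n * ‖l‖ ^ p → ‖z‖ < 1 → ∃ y, y ^ p = 1 + z := by
  have hlpos : 0 < ‖l‖ := norm_pos_iff.2 hl0
  set q : ℝ := min (1 / c) ρ with hq
  have hq1 : 1 ≤ q := le_min (by rw [le_div_iff₀ hc0]; linarith) hρ.le
  have hqc : c * q ≤ 1 := by
    calc c * q ≤ c * (1 / c) := mul_le_mul_of_nonneg_left (min_le_left _ _) hc0.le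
      _ = 1 := by field_simp
  have hqρ : q ≤ ρ := min_le_right _ _
  have hp2 := hp.two_le
  induction n with
  | zero => simpa using hR
  | succ n ih =>
    intro z hz hz1
    by_cases hz0 : z = 0
    · exact ⟨1, by rw [hz0, one_pow, add_zero]⟩
    have hzpos : 0 < ‖z‖ := norm_pos_iff.2 hz0
    set σ : ℝ := ρ * q ^ n with hσ
    have hσρ : ρ ≤ σ := by
      rw [hσ]
      exact le_mul_of_one_le_right (by linarith) (one_le_pow₀ hq1)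
    have hσ1 : 1 ≤ σ := hρ.le.trans hσρ
    have hzσ : ‖z‖ ≤ σ * q * ‖l‖ ^ p := by
      rw [hσ, mul_assoc ρ, ← pow_succ]
      exact hz
    obtain ⟨y, hy⟩ := hA z hz0
    have hyn : ‖y‖ ^ p = ‖z‖ := by
      rw [← norm_pow]
      refine norm_eq_of_sub_lt (hy.trans_lt ?_)
      calc c * ‖z‖ < 1 * ‖z‖ := mul_lt_mul_of_pos_right hc1 hzpos
        _ = _ := one_mul _
    have hy1 : ‖y‖ < 1 := by
      by_contra hcon
      rw [not_lt] at hcon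
      have := one_le_pow₀ hcon (n := p)
      linarith
    have hyσ : ‖y‖ ≤ σ * ‖l‖ := by
      by_contra hcon
      rw [not_le] at hcon
      have h1 : (σ * ‖l‖) ^ p < ‖y‖ ^ p :=
        pow_lt_pow_left₀ hcon (by positivity) hp.ne_zero
      rw [hyn] at h1
      have h2 : σ * q ≤ σ ^ p := by
        calc σ * q ≤ σ * σ := mul_le_mul_of_nonneg_left (hqρ.trans hσρ) (by linarith)
          _ = σ ^ 2 := by ring
          _ ≤ σ ^ p := pow_le_pow_right₀ hσ1 hp2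
      have h3 : σ * q * ‖l‖ ^ p ≤ (σ * ‖l‖) ^ p := by
        rw [mul_pow]
        exact mul_le_mul_of_nonneg_right h2 (by positivity)
      linarith
    have hA1 := norm_add_pow hp (1 : E) y hy1.le
    rw [one_pow, norm_one, max_self, one_pow, mul_one] at hA1
    have h5 : 1 + z = (1 + y) ^ p - (((1 + y) ^ p - 1 - y ^ p) - (z - y ^ p)) := by ring
    obtain ⟨z1, hz1e, hz1n⟩ := div_step hy1 h5
    have hpy : ‖(p : E)‖ * ‖y‖ ≤ σ * ‖l‖ ^ p := by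
      rw [← hl2]
      calc ‖l‖ ^ (p - 1) * ‖y‖ ≤ ‖l‖ ^ (p - 1) * (σ * ‖l‖) :=
            mul_le_mul_of_nonneg_left hyσ (by positivity)
        _ = σ * (‖l‖ ^ (p - 1) * ‖l‖) := by ring
        _ = σ * ‖l‖ ^ p := by rw [← pow_succ, Nat.sub_add_cancel hp.pos]
    have hcz : c * ‖z‖ ≤ σ * ‖l‖ ^ p := by
      calc c * ‖z‖ ≤ c * (σ * q * ‖l‖ ^ p) := mul_le_mul_of_nonneg_left hzσ hc0.le
        _ = (c * q) * (σ * ‖l‖ ^ p) := by ring
        _ ≤ 1 * (σ * ‖l‖ ^ p) := mul_le_mul_of_nonneg_right hqc (by positivity)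
        _ = _ := one_mul _
    have hz2 : ‖z1‖ ≤ σ * ‖l‖ ^ p := by
      rw [hz1n]
      exact (norm_sub_le_max' _ _).trans (max_le (hA1.trans hpy) (hy.trans hcz))
    have hp1 : ‖(p : E)‖ < 1 := by
      rw [← hl2]
      exact pow_lt_one₀ (norm_nonneg _) hl1 (by omega)
    have hz3 : ‖z1‖ < 1 := by
      rw [hz1n]
      refine (norm_sub_le_max' _ _).trans_lt (max_lt (hA1.trans_lt ?_) (hy.trans_lt ?_))
      · exact mul_lt_one_of_nonneg_of_lt_one_left (norm_nonneg _) hp1 hy1.le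
      · exact mul_lt_one_of_nonneg_of_lt_one_left hc0.le hc1 hz1.le
    obtain ⟨w, hw⟩ := ih z1 hz2 hz3
    exact ⟨(1 + y) * w, by rw [mul_pow, hw, hz1e]⟩

end

section final

variable {E : Type*} [NontriviallyNormedField E] [IsUltrametricDist E] [CompleteSpace E]

omit [CompleteSpace E] in
/-- roots of absolute values -/
theorem exists_roots {p : ℕ} (hp : p.Prime) (t : E) (ht0 : t ≠ 0) (ht1 : ‖t‖ < 1)
    (hAS : ∀ a : E, ‖a * t‖ ≤ 1 → ∃ x, x ^ p - x = a) (k : ℕ) :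
    ∃ s : E, s ≠ 0 ∧ ‖s‖ ^ (p ^ k) = ‖t‖ := by
  induction k with
  | zero => exact ⟨t, ht0, by rw [pow_zero, pow_one]⟩
  | succ k ih =>
    obtain ⟨s, hs0, hs⟩ := ih
    have hspos : 0 < ‖s‖ := norm_pos_iff.2 hs0
    have hs1 : ‖s‖ < 1 := by
      by_contra hcon
      rw [not_lt] at hcon
      have := one_le_pow₀ hcon (n := p ^ k)
      linarith
    have hst : ‖t‖ ≤ ‖s‖ := by
      rw [← hs]
      exact pow_le_of_le_one hspos.le hs1.le (pow_ne_zero _ hp.ne_zero)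
    obtain ⟨x, hx⟩ := hAS s⁻¹ (by
      rw [norm_mul, norm_inv, inv_mul_le_iff₀ hspos, mul_one]
      exact hst)
    have hsi : 1 < ‖s⁻¹‖ := by
      rw [norm_inv]
      exact (one_lt_inv₀ hspos).2 hs1
    have hx1 : 1 < ‖x‖ := by
      by_contra hcon
      rw [not_lt] at hcon
      have h1 : ‖x ^ p - x‖ ≤ 1 := (norm_sub_le_max' _ _).trans
        (max_le (by rw [norm_pow]; exact pow_le_one₀ (norm_nonneg _) hcon) hcon)
      rw [hx] at h1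
      linarith
    have hxp : ‖x‖ ^ p = ‖s‖⁻¹ := by
      have h2 : ‖x ^ p - s⁻¹‖ < ‖x ^ p‖ := by
        rw [← hx]
        have e : x ^ p - (x ^ p - x) = x := by ring
        rw [e, norm_pow]
        calc ‖x‖ = ‖x‖ ^ 1 := (pow_one _).symm
          _ < ‖x‖ ^ p := pow_lt_pow_right₀ hx1 hp.one_lt
      have h3 := norm_eq_of_sub_lt h2
      rw [norm_inv, norm_pow] at h3
      exact h3.symm
    refine ⟨x⁻¹, inv_ne_zero (norm_pos_iff.1 (by linarith)), ?_⟩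
    rw [norm_inv, pow_succ' p k, pow_mul, inv_pow, hxp, inv_inv, hs]

omit [CompleteSpace E] in
/-- elements of absolute value less than one and near one -/
theorem exists_near {p : ℕ} (hp : p.Prime) (t : E) (ht1 : ‖t‖ < 1)
    (hAS : ∀ a : E, ‖a * t‖ ≤ 1 → ∃ x, x ^ p - x = a) (r : ℝ) (hr0 : 0 ≤ r) (hr : r < 1)
    (m : ℕ) : ∃ s : E, s ≠ 0 ∧ ‖s‖ < 1 ∧ r < ‖s‖ ^ m := by
  obtain ⟨t', ht0', ht1', hAS'⟩ : ∃ t' : E, t' ≠ 0 ∧ ‖t'‖ < 1 ∧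
      ∀ a : E, ‖a * t'‖ ≤ 1 → ∃ x, x ^ p - x = a := by
    by_cases ht : t = 0
    · obtain ⟨t', h1, h2⟩ := NormedField.exists_norm_lt_one E
      refine ⟨t', norm_pos_iff.1 h1, h2, fun a _ => hAS a ?_⟩
      rw [ht, mul_zero, norm_zero]
      exact zero_le_one
    · exact ⟨t, ht, ht1, hAS⟩
  have htpos : 0 < ‖t'‖ ^ m := pow_pos (norm_pos_iff.2 ht0') m
  obtain ⟨k, hk⟩ := exists_pow_lt_of_lt_one htpos hr
  obtain ⟨s, hs0, hs⟩ := exists_roots hp t' ht0' ht1' hAS' k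
  have hspos : 0 < ‖s‖ := norm_pos_iff.2 hs0
  have hs1 : ‖s‖ < 1 := by
    by_contra hcon
    rw [not_lt] at hcon
    have := one_le_pow₀ hcon (n := p ^ k)
    linarith
  refine ⟨s, hs0, hs1, ?_⟩
  by_contra hcon
  rw [not_lt] at hcon
  have h1 : (‖s‖ ^ m) ^ (p ^ k) ≤ r ^ (p ^ k) := pow_le_pow_left₀ (by positivity) hcon _
  have h2 : (‖s‖ ^ m) ^ (p ^ k) = ‖t'‖ ^ m := by
    rw [← pow_mul, mul_comm, pow_mul, hs]
  have h3 : r ^ (p ^ k) ≤ r ^ k :=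
    pow_le_pow_of_le_one hr0 hr.le (Nat.lt_pow_self hp.one_lt).le
  linarith

omit [CompleteSpace E] in
/-- approximation by `p`-th powers -/
theorem approx {p : ℕ} (hp : p.Prime) (t : E) (ht1 : ‖t‖ < 1)
    (hAS : ∀ a : E, ‖a * t‖ ≤ 1 → ∃ x, x ^ p - x = a) :
    ∃ c : ℝ, 0 < c ∧ c < 1 ∧ ∀ x : E, x ≠ 0 → ∃ y, ‖x - y ^ p‖ ≤ c * ‖x‖ := by
  have hp2 := hp.two_le
  obtain ⟨s, hs0, hs1, hs2⟩ := exists_near hp t ht1 hAS ‖t‖ (norm_nonneg _) ht1 p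
  have hspos : 0 < ‖s‖ := norm_pos_iff.2 hs0
  have hsp : 0 < ‖s‖ ^ p := pow_pos hspos p
  have hc0 : ‖s‖ ^ (p - 1) < 1 := pow_lt_one₀ (norm_nonneg _) hs1 (by omega)
  -- elements of absolute value at most one
  have h1 : ∀ x : E, ‖x‖ ≤ 1 → ∃ z, ‖x - z ^ p‖ ≤ ‖s‖ ^ (p - 1) := by
    intro x hx
    obtain ⟨y, hy⟩ := hAS (x / s ^ p) (by
      rw [norm_mul, norm_div, norm_pow, div_mul_eq_mul_div, div_le_one hsp]
      calc ‖x‖ * ‖t‖ ≤ 1 * ‖t‖ := mul_le_mul_of_nonneg_right hx (norm_nonneg _)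
        _ = ‖t‖ := one_mul _
        _ ≤ _ := hs2.le)
    have hsp' : s ^ p = s ^ (p - 1) * s := by rw [← pow_succ, Nat.sub_add_cancel hp.pos]
    have e : (s * y) ^ p - s ^ (p - 1) * (s * y) = x := by
      have h2 : s ^ p * (x / s ^ p) = x := mul_div_cancel₀ _ (pow_ne_zero _ hs0)
      rw [← hy] at h2
      rw [← h2, mul_pow, hsp']
      ring
    have hz1 : ‖s * y‖ ≤ 1 := by
      by_contra hcon
      rw [not_le] at hcon
      have h3 : ‖(s * y) ^ p - x‖ < ‖(s * y) ^ p‖ := by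
        have e2 : (s * y) ^ p - x = s ^ (p - 1) * (s * y) := by
          rw [← e]
          ring
        rw [e2, norm_mul, norm_pow, norm_pow]
        calc ‖s‖ ^ (p - 1) * ‖s * y‖ ≤ 1 * ‖s * y‖ :=
              mul_le_mul_of_nonneg_right hc0.le (norm_nonneg _)
          _ = ‖s * y‖ ^ 1 := by rw [one_mul, pow_one]
          _ < ‖s * y‖ ^ p := pow_lt_pow_right₀ hcon hp.one_lt
      have h4 := norm_eq_of_sub_lt h3
      rw [norm_pow] at h4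
      have h5 : 1 < ‖s * y‖ ^ p := one_lt_pow₀ hcon hp.ne_zero
      linarith
    refine ⟨s * y, ?_⟩
    have e3 : x - (s * y) ^ p = -(s ^ (p - 1) * (s * y)) := by
      rw [← e]
      ring
    rw [e3, norm_neg, norm_mul, norm_pow]
    calc ‖s‖ ^ (p - 1) * ‖s * y‖ ≤ ‖s‖ ^ (p - 1) * 1 :=
          mul_le_mul_of_nonneg_left hz1 (by positivity)
      _ = _ := mul_one _
  obtain ⟨v, hv0, hv1, hv2⟩ := exists_near hp t ht1 hAS (‖s‖ ^ (p - 1)) (by positivity) hc0 p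
  have hvp : 0 < ‖v‖ ^ p := pow_pos (norm_pos_iff.2 hv0) p
  have hvp1 : ‖v‖ ^ p < 1 := pow_lt_one₀ (norm_nonneg _) hv1 hp.ne_zero
  refine ⟨‖s‖ ^ (p - 1) / ‖v‖ ^ p, by positivity, by rwa [div_lt_one hvp], fun x hx => ?_⟩
  have hxpos : 0 < ‖x‖ := norm_pos_iff.2 hx
  -- scaling
  obtain ⟨n, hn1, hn2⟩ := exists_mem_Ioc_zpow hxpos (one_lt_inv_iff₀.2 ⟨hvp, hvp1⟩)
  -- `(‖v‖^p)⁻¹ ^ n < ‖x‖ ≤ (‖v‖^p)⁻¹ ^ (n+1)`
  set u : E := (v ^ (n + 1))⁻¹ with hu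
  have hv0' : v ^ (n + 1) ≠ 0 := zpow_ne_zero _ hv0
  have hu0 : u ≠ 0 := inv_ne_zero hv0'
  have hun : ‖u ^ p‖ = (‖v‖ ^ p)⁻¹ ^ (n + 1) := by
    rw [hu, norm_pow, norm_inv, norm_zpow, inv_pow, inv_zpow]
    congr 1
    rw [← zpow_natCast, ← zpow_natCast, ← zpow_mul, ← zpow_mul, mul_comm]
  have hupos : 0 < ‖u ^ p‖ := norm_pos_iff.2 (pow_ne_zero _ hu0)
  have hx1 : ‖x / u ^ p‖ ≤ 1 := by
    rw [norm_div, div_le_one hupos, hun]
    exact hn2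
  have hx2 : ‖v‖ ^ p < ‖x / u ^ p‖ := by
    rw [norm_div, lt_div_iff₀ hupos, hun, zpow_add_one₀ (by positivity)]
    calc ‖v‖ ^ p * ((‖v‖ ^ p)⁻¹ ^ n * (‖v‖ ^ p)⁻¹) = (‖v‖ ^ p)⁻¹ ^ n := by
          field_simp
      _ < ‖x‖ := hn1
  obtain ⟨z, hz⟩ := h1 _ hx1
  refine ⟨u * z, ?_⟩
  have e4 : x - (u * z) ^ p = u ^ p * (x / u ^ p - z ^ p) := by
    rw [mul_sub, mul_div_cancel₀ _ (pow_ne_zero _ hu0), mul_pow]
  have e5 : ‖x‖ = ‖u ^ p‖ * ‖x / u ^ p‖ := by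
    rw [← norm_mul, mul_div_cancel₀ _ (pow_ne_zero _ hu0)]
  rw [e4, norm_mul, e5]
  calc ‖u ^ p‖ * ‖x / u ^ p - z ^ p‖ ≤ ‖u ^ p‖ * ‖s‖ ^ (p - 1) :=
        mul_le_mul_of_nonneg_left hz (norm_nonneg _)
    _ = ‖s‖ ^ (p - 1) / ‖v‖ ^ p * (‖u ^ p‖ * ‖v‖ ^ p) := by field_simp
    _ ≤ ‖s‖ ^ (p - 1) / ‖v‖ ^ p * (‖u ^ p‖ * ‖x / u ^ p‖) := by
        refine mul_le_mul_of_nonneg_left ?_ (by positivity)
        exact mul_le_mul_of_nonneg_left hx2.le (norm_nonneg _)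

theorem all_powers {p : ℕ} (hp : p.Prime) (hp0 : (p : E) ≠ 0) (hp1 : ‖(p : E)‖ < 1) {ζ : E}
    (hζ : IsPrimitiveRoot ζ p)
    (hAS : ∃ t : E, ‖t‖ < 1 ∧ ∀ a : E, ‖a * t‖ ≤ 1 → ∃ x, x ^ p - x = a) (x : E) :
    ∃ y, y ^ p = x := by
  by_cases hx : x = 0
  · exact ⟨0, by rw [hx, zero_pow hp.ne_zero]⟩
  obtain ⟨l, hl0, hl1, hl2, hl3⟩ := lam_props hp hp0 hp1 hζ
  obtain ⟨t, ht1, hAS⟩ := hAS
  obtain ⟨c, hc0, hc1, hA⟩ := approx hp t ht1 hAS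
  have hlpos : 0 < ‖l‖ := norm_pos_iff.2 hl0
  obtain ⟨s, hs0, hs1, hs2⟩ := exists_near hp t ht1 hAS (max ‖t‖ ‖l‖) (le_max_of_le_left (norm_nonneg _))
    (max_lt ht1 hl1) 1
  rw [pow_one, max_lt_iff] at hs2
  have hspos : 0 < ‖s‖ := norm_pos_iff.2 hs0
  have hAS' : ∀ a : E, ‖a * s‖ ≤ 1 → ∃ x, x ^ p - x = a := by
    intro a ha
    refine hAS a (le_trans ?_ ha)
    rw [norm_mul, norm_mul]
    exact mul_le_mul_of_nonneg_left hs2.1.le (norm_nonneg _)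
  have hρ : 1 < 1 / ‖s‖ := by
    rw [lt_div_iff₀ hspos, one_mul]
    exact hs1
  have hR : ∀ z : E, ‖z‖ ≤ 1 / ‖s‖ * ‖l‖ ^ p → ‖z‖ < 1 → ∃ y, y ^ p = 1 + z := by
    intro z hz _
    refine scale_root hp hl0 hl1 hl2 hl3 hp0 s hs2.2 hs1 hAS' z ?_
    calc ‖z‖ * ‖s‖ ≤ 1 / ‖s‖ * ‖l‖ ^ p * ‖s‖ := mul_le_mul_of_nonneg_right hz (norm_nonneg _)
      _ = ‖l‖ ^ p := by field_simp
  have hq : 1 < min (1 / c) (1 / ‖s‖) := by
    refine lt_min ?_ hρ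
    rw [lt_div_iff₀ hc0, one_mul]
    exact hc1
  obtain ⟨n, hn⟩ := pow_unbounded_of_one_lt (1 / (1 / ‖s‖ * ‖l‖ ^ p)) hq
  have hbig : 1 ≤ 1 / ‖s‖ * (min (1 / c) (1 / ‖s‖)) ^ n * ‖l‖ ^ p := by
    have h1 : 0 < 1 / ‖s‖ * ‖l‖ ^ p := by positivity
    rw [div_lt_iff₀ h1] at hn
    calc (1 : ℝ) ≤ (min (1 / c) (1 / ‖s‖)) ^ n * (1 / ‖s‖ * ‖l‖ ^ p) := hn.le
      _ = _ := by ring
  obtain ⟨y, hy⟩ := hA x hx
  have hxpos : 0 < ‖x‖ := norm_pos_iff.2 hx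
  have hyn : ‖y ^ p‖ = ‖x‖ := norm_eq_of_sub_lt (hy.trans_lt (by
    calc c * ‖x‖ < 1 * ‖x‖ := mul_lt_mul_of_pos_right hc1 hxpos
      _ = _ := one_mul _))
  have hy0 : y ^ p ≠ 0 := by
    intro h
    rw [h, norm_zero] at hyn
    exact hxpos.ne hyn
  have hz : ‖(x - y ^ p) / y ^ p‖ ≤ c := by
    rw [norm_div, hyn, div_le_iff₀ hxpos]
    exact hy
  obtain ⟨w, hw⟩ := climb hp hl0 hl1 hl2 hl3 c hc0 hc1 hA _ hρ hR n ((x - y ^ p) / y ^ p)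
    ((hz.trans hc1.le).trans hbig) (hz.trans_lt hc1)
  refine ⟨y * w, ?_⟩
  rw [mul_pow, hw]
  field_simp
  ring

end final

end Pool.Agent.T9h43.MC
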